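import Pool.Agent.TH641.UM.Ones

/-!
# Linear systems with at most one member, from emptiness after one more simple point
-/

set_option autoImplicit false

namespace Pool.Agent.Q197.SG

open Pool.Agent.TH176.Nag Pool.Agent.TH603.Sur Pool.Agent.H932R2 Pool.Agent.H932R3 Pool.Agent.TH641.UM
open Polynomial (C X)

/-- the dimension of the space of the forms of degree `d` with multiplicity at least `w i` at the
points `(P i 0 : P i 1 : 1)` -/
noncomputable def dimL (L : Type) [Field L] {n : ℕ} (w : Fin n → ℕ) (P : Fin n → Fin 2 → L) (d : ℕ) : ℕ :=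
  Module.finrank L
    ↥(MvPolynomial.homogeneousSubmodule (Fin 3) L d ⊓
      Submodule.restrictScalars L
        (⨅ i : Fin n,
          (Ideal.span
            ({MvPolynomial.X 0 - MvPolynomial.C (P i 0) * MvPolynomial.X 2,
              MvPolynomial.X 1 - MvPolynomial.C (P i 1) * MvPolynomial.X 2} :
              Set (MvPolynomial (Fin 3) L))) ^ (w i)))

theorem expDim_iff {L : Type} [Field L] {n : ℕ} {w : Fin n → ℕ} {P : Fin n → Fin 2 → L} {d : ℕ} :
    ExpDim L w P d ↔ dimL L w P d = (d + 2).choose 2 - ∑ i, (w i + 1).choose 2 := Iff.rfl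

section lin
variable {K : Type} [Field K]

theorem ker_of_LM {ι : Type} {w : ι → ℕ} {x y : ι → K} (hx : ∀ i, x i ≠ 0) (hy : ∀ i, y i ≠ 0)
    {T : Finset (ℕ × ℕ)}
    (h : ∀ f : (ℤ × ℤ) →₀ K, (↑f.support : Set (ℤ × ℤ)) ⊆ castS T →
      (∀ i, LM f (x i) (y i) (w i)) → f = 0) :
    mspan K (↑T : Set (ℕ × ℕ)) ⊓ Submodule.restrictScalars K (vIdeal 1 w x (fun a => C (y a))) = ⊥ := by
  classical
  rw [eq_bot_iff]
  rintro f ⟨hf1, hf2⟩
  obtain ⟨c, rfl⟩ := (mem_mspan_iff T f).1 hf1
  have hc : ∑ i, c i • Pool.Agent.H932R2.mon K (enumM T i) ∈ vIdeal 1 w x (fun a => C (y a)) := hf2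
  have h1 : (tl K (∑ i, c i • Pool.Agent.H932R2.mon K (enumM T i))).coeff =
      ∑ i, Finsupp.single ((((enumM T i).1 : ℕ) : ℤ), (((enumM T i).2 : ℕ) : ℤ)) (c i) := by
    rw [map_sum, AddMonoidAlgebra.coeff_sum]
    apply Finset.sum_congr rfl
    intro i _
    rw [tl_mon, AddMonoidAlgebra.coeff_single]
  have h2 := h (tl K (∑ i, c i • Pool.Agent.H932R2.mon K (enumM T i))).coeff (by
    intro m hm
    rw [h1] at hm
    rw [Finset.mem_coe, Finsupp.mem_support_iff, Finsupp.coe_finsetSum, Finset.sum_apply] at hm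
    obtain ⟨i, _, hi⟩ := Finset.exists_ne_zero_of_sum_ne_zero hm
    rw [Finsupp.single_apply] at hi
    have h3 : ((((enumM T i).1 : ℕ) : ℤ), (((enumM T i).2 : ℕ) : ℤ)) = m := by
      by_contra h4
      rw [if_neg h4] at hi
      exact hi rfl
    exact ⟨_, enumM_mem T i, h3⟩) (by
    intro j
    unfold vIdeal at hc
    rw [Ideal.mem_iInf] at hc
    exact LM_of_cIdeal (hx j) (hy j) (hc j))
  rw [Submodule.mem_bot, coordMap_apply]
  refine Finset.sum_eq_zero fun i _ => ?_
  have h3 := DFunLike.congr_fun (h1.symm.trans h2)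
    ((((enumM T i).1 : ℕ) : ℤ), (((enumM T i).2 : ℕ) : ℤ))
  rw [Finsupp.coe_finsetSum, Finset.sum_apply, Finset.sum_eq_single i] at h3
  · have h4 : c i = 0 := by simpa using h3
    rw [h4, zero_smul]
  · intro j _ hne
    rw [Finsupp.single_apply, if_neg]
    intro h4
    apply hne
    apply enumM_inj T
    simp only [Prod.mk.injEq, Nat.cast_inj] at h4
    exact Prod.ext h4.1 h4.2
  · intro h4
    exact absurd (Finset.mem_univ i) h4

theorem finrank_le_one {J : Submodule K (Polynomial (Polynomial K))} {T M : Finset (ℕ × ℕ)} {a : ℕ × ℕ}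
    (hM : (↑M : Set (ℕ × ℕ)) ⊆ insert a ↑T) (h0 : mspan K (↑T : Set (ℕ × ℕ)) ⊓ J = ⊥) :
    Module.finrank K ↥(mspan K (↑M : Set (ℕ × ℕ)) ⊓ J) ≤ 1 := by
  classical
  set A := mspan K (↑T : Set (ℕ × ℕ)) with hA
  set S := Submodule.span K {Pool.Agent.H932R2.mon K a} with hS
  have hfA : FiniteDimensional K A := by
    rw [hA]
    unfold mspan
    exact FiniteDimensional.span_of_finite K ((T.finite_toSet).image _)
  have hfS : FiniteDimensional K S := FiniteDimensional.span_of_finite K (Set.finite_singleton _)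
  have hfM : FiniteDimensional K (mspan K (↑M : Set (ℕ × ℕ))) := by
    unfold mspan
    exact FiniteDimensional.span_of_finite K ((M.finite_toSet).image _)
  set W := mspan K (↑M : Set (ℕ × ℕ)) ⊓ J with hW
  have hfW : FiniteDimensional K W := Submodule.finiteDimensional_of_le (S₂ := mspan K (↑M : Set (ℕ × ℕ))) inf_le_left
  have hMB : mspan K (↑M : Set (ℕ × ℕ)) ≤ A ⊔ S := by
    unfold mspan at hA ⊢
    rw [Submodule.span_le]
    rintro f ⟨p, hp, rfl⟩
    rcases hM hp with h1 | h1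
    · rw [h1]
      exact Submodule.mem_sup_right (Submodule.subset_span (Set.mem_singleton _))
    · refine Submodule.mem_sup_left ?_
      rw [hA]
      exact Submodule.subset_span ⟨p, h1, rfl⟩
  have h1 : W ⊓ A = ⊥ := by
    rw [eq_bot_iff, ← h0]
    rintro f ⟨⟨_, h2⟩, h3⟩
    exact ⟨h3, h2⟩
  have h2 := Submodule.finrank_sup_add_finrank_inf_eq W A
  rw [h1, finrank_bot, add_zero] at h2
  have h3 : W ⊔ A ≤ A ⊔ S := sup_le (inf_le_left.trans hMB) le_sup_left
  have h4 : Module.finrank K ↥(W ⊔ A) ≤ Module.finrank K ↥(A ⊔ S) := Submodule.finrank_mono h3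
  have h5 : Module.finrank K ↥(A ⊔ S) ≤ Module.finrank K A + Module.finrank K S :=
    Submodule.finrank_add_le_finrank_add_finrank A S
  have h6 : Module.finrank K S ≤ 1 := by
    have := finrank_span_le_card (R := K) ({Pool.Agent.H932R2.mon K a} : Set (Polynomial (Polynomial K)))
    simpa using this
  omega

/-- the number of conditions is at most the virtual one -/
theorem finrank_ge {ι : Type} [Fintype ι] {r : ℕ} {w : ι → ℕ} {c : ι → K} {γ : ι → Polynomial K}
    (M : Finset (ℕ × ℕ)) :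
    M.card - ∑ a, (EE r (w a)).card ≤ Module.finrank K ↥(mspan K (↑M : Set (ℕ × ℕ)) ⊓
      Submodule.restrictScalars K (vIdeal r w c γ)) := by
  classical
  have hcard : Fintype.card (Σ a : ι, EE r (w a)) = ∑ a, (EE r (w a)).card := by
    rw [Fintype.card_sigma]
    exact Finset.sum_congr rfl fun a _ => Fintype.card_coe _
  have h0 : Module.finrank K ↥(LinearMap.ker ((condMapV r w c γ).comp (coordMap K M))) =
      Module.finrank K ↥(mspan K (↑M : Set (ℕ × ℕ)) ⊓
      Submodule.restrictScalars K (vIdeal r w c γ)) := by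
    refine LinearEquiv.finrank_eq (LinearEquiv.ofBijective
      { toFun := fun f => ⟨coordMap K M f.1, (mem_mspan_iff M _).2 ⟨f.1, rfl⟩,
          mem_vIdeal_iff.2 f.2⟩
        map_add' := fun f g => Subtype.ext (map_add _ _ _)
        map_smul' := fun a f => Subtype.ext (map_smul _ _ _) } ⟨?_, ?_⟩)
    · intro f g hfg
      exact Subtype.ext (coordMap_inj M (congrArg Subtype.val hfg))
    · rintro ⟨f, hf, hf'⟩
      obtain ⟨a, rfl⟩ := (mem_mspan_iff M f).1 hf
      exact ⟨⟨a, mem_vIdeal_iff.1 hf'⟩, rfl⟩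
  have h1 := LinearMap.finrank_range_add_finrank_ker ((condMapV r w c γ).comp (coordMap K M))
  have h2 := Submodule.finrank_le (LinearMap.range ((condMapV r w c γ).comp (coordMap K M)))
  rw [Module.finrank_fintype_fun_eq_card] at h1 h2
  rw [hcard] at h2
  rw [Fintype.card_fin, h0] at h1
  omega

end lin

/-- **emptiness after one more simple point**: at most one curve in all degrees up to `e`, at general
points -/
theorem one_open {n : ℕ} {w : Fin n → ℕ} {e : ℕ} (h : Emp (Sum.elim w (fun _ : Fin 1 => 1)) (TZ e)) :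
    ∃ F : MvPolynomial (Fin n × Fin 2) ℚ, F ≠ 0 ∧ ∀ {L : Type} [Field L] [CharZero L]
      (P : Fin n → Fin 2 → L), MvPolynomial.aeval (fun ij : Fin n × Fin 2 => P ij.1 ij.2) F ≠ 0 →
      ∀ d ≤ e, dimL L w P d ≤ 1 := by
  classical
  have h' : Emp (Sum.elim w (fun _ : Fin (0 + 1) => 1)) (↑(TF e) : Set (ℤ × ℤ)) := by
    rw [coe_TF]; exact h
  have hne : (TF e).Nonempty := by
    refine ⟨(0, 0), ?_⟩
    rw [← Finset.mem_coe, coe_TF]
    exact ⟨by simp, by simp, by simp⟩
  obtain ⟨m, hm, hE⟩ := Emp_erase hne h'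
  rw [Emp_zero_iff] at hE
  have hTF : ∀ {p : ℤ × ℤ}, p ∈ TF e ↔ p ∈ TZ e := fun {p} => by rw [← Finset.mem_coe, coe_TF]
  have hT : (↑((TF e).erase m) : Set (ℤ × ℤ)) ⊆ TZ e := by
    intro p hp
    exact hTF.1 (Finset.mem_of_mem_erase (Finset.mem_coe.1 hp))
  obtain ⟨T', hT1, hT2, hT3⟩ := exists_nat hT
  obtain ⟨F, hF, hF'⟩ := Emp_open ((TF e).erase m).finite_toSet (fun p hp => ⟨(hT hp).1, (hT hp).2.1⟩) hE
  refine ⟨F, hF, fun {L} _ _ P hP d hd => ?_⟩
  obtain ⟨h1, h2⟩ := hF' _ hP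
  have h3 := ker_of_LM (w := w) (x := fun i => P i 0) (y := fun i => P i 1) (T := T')
    (fun i => h1 (i, 0)) (fun i => h1 (i, 1)) (fun f hf hL => h2 f (by rw [← hT1]; exact hf) hL)
  have hsub : (↑(Tfin d) : Set (ℕ × ℕ)) ⊆ insert (m.1.toNat, m.2.toNat) ↑T' := by
    intro p hp
    rw [coe_Tfin] at hp
    have hp' : p.1 + p.2 ≤ d := hp
    by_cases hpm : (((p.1 : ℤ), (p.2 : ℤ)) : ℤ × ℤ) = m
    · left
      rw [← hpm]
      simp
    · right
      have h4 : (((p.1 : ℤ), (p.2 : ℤ)) : ℤ × ℤ) ∈ (↑((TF e).erase m) : Set (ℤ × ℤ)) := by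
        rw [Finset.mem_coe, Finset.mem_erase]
        refine ⟨hpm, hTF.2 ⟨by simp, by simp, ?_⟩⟩
        simp only
        omega
      rw [← hT1] at h4
      obtain ⟨p', hp1, hp2⟩ := h4
      have h5 : p' = p := by
        rw [Prod.mk.injEq] at hp2
        ext
        · exact_mod_cast hp2.1
        · exact_mod_cast hp2.2
      rw [← h5]
      exact hp1
  have h4 := finrank_le_one hsub h3
  rw [coe_Tfin] at h4
  refine le_trans (le_of_eq ?_) h4
  unfold dimL
  refine Pool.Agent.H932R2.finrank_forms _ _ fun F hF => ?_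
  rw [Submodule.restrictScalars_mem, Submodule.restrictScalars_mem]
  unfold vIdeal
  rw [Ideal.mem_iInf, Ideal.mem_iInf]
  exact forall_congr' fun i => mem_ptIdeal_iff hF

/-- the virtual dimension is a lower bound -/
theorem dimL_ge {L : Type} [Field L] {n : ℕ} (w : Fin n → ℕ) (P : Fin n → Fin 2 → L) (d : ℕ) :
    (d + 2).choose 2 - ∑ i, (w i + 1).choose 2 ≤ dimL L w P d := by
  have e1 : dimL L w P d = Module.finrank L ↥(mspan L (Tset d) ⊓
      Submodule.restrictScalars L (vIdeal 1 w (fun i => P i 0) (fun i => C (P i 1)))) := by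
    unfold dimL
    refine Pool.Agent.H932R2.finrank_forms _ _ fun F hF => ?_
    rw [Submodule.restrictScalars_mem, Submodule.restrictScalars_mem]
    unfold vIdeal
    rw [Ideal.mem_iInf, Ideal.mem_iInf]
    exact forall_congr' fun i => mem_ptIdeal_iff hF
  have h1 := finrank_ge (r := 1) (w := w) (c := fun i => P i 0) (γ := fun i => C (P i 1)) (Tfin d)
  rw [coe_Tfin, ← e1] at h1
  have hsum : ∑ a, (EE 1 (w a)).card = ∑ i, (w i + 1).choose 2 :=
    Finset.sum_congr rfl fun i _ => card_EE_eq (w i)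
  have hN : (Tfin d).card = (d + 2).choose 2 := by
    have h4 := card_Tfin d
    have h5 : (d + 2).choose 2 * 2 = (d + 2) * (d + 1) := by
      rw [Nat.choose_two_right, Nat.div_mul_cancel (Nat.even_mul_pred_self _).two_dvd]
      rfl
    linarith
  rw [hN, hsum] at h1
  exact h1

/-- the expected dimension or one curve -/
theorem expDim_or_one {L : Type} [Field L] {n : ℕ} {w : Fin n → ℕ} {P : Fin n → Fin 2 → L} {d : ℕ}
    (h : dimL L w P d ≤ 1) : ExpDim L w P d ∨
      ((d + 2).choose 2 ≤ ∑ i, (w i + 1).choose 2 ∧ dimL L w P d = 1) := by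
  have h1 := dimL_ge w P d
  rw [expDim_iff]
  omega

end Pool.Agent.Q197.SG
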