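import Pool.Agent.Q197.SG.Num
import Pool.Agent.Q197.SG.One

/-!
# Anticanonical degrees: groups of points of arbitrary multiplicities
-/

set_option autoImplicit false

namespace Pool.Agent.Q197.SG

open Finset Pool.Agent.TH176.Nag Pool.Agent.TH603.Sur Pool.Agent.TH603.Cut Pool.Agent.TH641.NW
  Pool.Agent.TH469.SX Pool.Agent.H932R3 Pool.Agent.TH978.S13
open Pool.Agent.TH864.SX (Fb Fa Slp)

/-- one open set for all degrees below a degree with the property -/
theorem one_all {n : ℕ} {w : Fin n → ℕ} {A : ℕ → Prop} (N : ℕ) (hA : ∀ d, A d → d ≤ N)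
    (h : ∀ d, A d → Emp (Sum.elim w (fun _ : Fin 1 => 1)) (TZ d)) :
    ∃ F : MvPolynomial (Fin n × Fin 2) ℚ, F ≠ 0 ∧ ∀ {L : Type} [Field L] [CharZero L]
      (P : Fin n → Fin 2 → L), MvPolynomial.aeval (fun ij : Fin n × Fin 2 => P ij.1 ij.2) F ≠ 0 →
      ∀ d d', A d' → d ≤ d' → dimL L w P d ≤ 1 := by
  classical
  by_cases hex : ∃ d, A d
  · obtain ⟨d0, hd0⟩ := hex
    have h1 := Nat.findGreatest_spec (P := A) (hA d0 hd0) hd0
    obtain ⟨F, hF, hF'⟩ := one_open (h _ h1)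
    exact ⟨F, hF, fun {L} _ _ P hP d d' hd hdd => hF' P hP d
      (hdd.trans (Nat.le_findGreatest (hA d' hd) hd))⟩
  · exact ⟨1, one_ne_zero, fun {L} _ _ P _ d d' hd _ => absurd ⟨d', hd⟩ hex⟩

/-- reindexing -/
theorem Emp_reidx {κ : Type} {n : ℕ} {w : κ → ℕ} {W : Fin n → ℕ} {S : Set (ℤ × ℤ)} (e : κ ≃ Fin n)
    (hw : ∀ i, w i ≤ W (e i)) (h : Emp (Sum.elim w (fun _ : Fin 1 => 1)) S) :
    Emp (Sum.elim W (fun _ : Fin 1 => 1)) S := by
  refine Emp_emb (g := Sum.map e id) (Sum.map_injective.2 ⟨e.injective, Function.injective_id⟩) ?_ h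
  rintro (i | i)
  · simpa using hw i
  · simp

variable {M N q p r k h : ℕ} {K ρ : ℝ}

theorem hd3 (h : ℕ) : (((3 * h : ℕ) : ℝ)) / 3 = h := by push_cast; ring

/-- emptiness in the degree `3 h` after one more simple point -/
theorem Emp_anti (hs : Sl M N q p K ρ) (hK1 : K < M + 1) (hk : (r + 1) * M + k = 9)
    (w : Fin (r + 1) → Fin N → ℕ) (hw : ∀ j, ρ * (2 * h + 1) < N + 2 * ∑ i, (w j i : ℝ))
    (v : Fin k → ℕ) (hv : ∀ i, h ≤ v i) :
    Emp (Sum.elim (Sum.elim (fun p : Fin (r + 1) × Fin N => w p.1 p.2) v) (fun _ : Fin 1 => 1))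
      (TZ (3 * h)) := by
  have hS := hs.slp
  have hirr : Irrational (K - M) := hS.irr.sub_natCast M
  have hMK := hS.hMK
  have h1 := Emp_groups hS hirr r w (fun j => hs.Emp (Fintype.card_fin N) (by rw [hd3]; exact hw j))
  have ha : 1 ≤ (r + 1) * M := Nat.mul_pos (Nat.succ_pos r) hS.hM
  have h2 := Emp_units1 ha hirr h1 k v hv
  have h9 : K - M + (((r + 1) * M + k : ℕ) : ℝ) = K - M + 9 := by rw [hk]; push_cast; ring
  rw [h9] at h2
  exact Emp_plane9 hirr (by linarith) (by linarith) h2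

/-- independence in the degree `3 h` -/
theorem Sur_anti (hs : Sl M N q p K ρ) (hK1 : K < M + 1) (hk : (r + 1) * M + k = 9)
    (w : Fin (r + 1) → Fin N → ℕ) (b : Fin (r + 1) → ℕ) (hb : ∀ j i, w j i ≤ b j + 1)
    (hw : ∀ j, N + 2 * ∑ i, ((max (w j i) (b j) : ℕ) : ℝ) ≤ ρ * (2 * h + 1)) :
    Sur (Sum.elim (fun p : Fin (r + 1) × Fin N => w p.1 p.2) (fun _ : Fin k => h)) (TZ (3 * h)) := by
  have hS := hs.slp
  have hirr : Irrational (K - M) := hS.irr.sub_natCast M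
  have hMK := hS.hMK
  have h1 : ∀ j, Sur (w j) (Sc (K - M) (K - M + M) h) := by
    intro j
    have h2 := Sur_bo hS (hs.Sur (Fintype.card_fin N) (hb j) (by rw [hd3]; exact hw j))
    refine h2.mono ?_
    rintro x ⟨g1, g2, g3⟩
    rw [hd3] at g2 g3
    refine ⟨g1, g2, ?_⟩
    have e : K - M + M = K := by ring
    rw [e]
    exact g3
  have ha : 1 ≤ (r + 1) * M := Nat.mul_pos (Nat.succ_pos r) hS.hM
  have h2 := Sur_units ha hirr (Sur_groups hS.hM r w h1) k
  have h9 : K - M + (((r + 1) * M + k : ℕ) : ℝ) = K - M + 9 := by rw [hk]; push_cast; ring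
  rw [h9] at h2
  exact Sur_plane9 hirr (by linarith) (by linarith) h2

/-- all points -/
def all (v : Fin k → ℕ) (w : Fin r → Fin N → ℕ) : Fin (k + r * N) → ℕ :=
  Fin.append v (fun i => w i.divNat i.modNat)

/-- the indices -/
def idx (k r N : ℕ) : (Fin r × Fin N) ⊕ Fin k ≃ Fin (k + r * N) :=
  (Equiv.sumComm _ _).trans ((Equiv.sumCongr (Equiv.refl _) finProdFinEquiv).trans finSumFinEquiv)

theorem all_idx (v : Fin k → ℕ) (w : Fin r → Fin N → ℕ) (x : (Fin r × Fin N) ⊕ Fin k) :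
    all v w (idx k r N x) = Sum.elim (fun p : Fin r × Fin N => w p.1 p.2) v x := by
  rcases x with ⟨a, b⟩ | i
  · have h1 : idx k r N (Sum.inl (a, b)) = Fin.natAdd k (finProdFinEquiv (a, b)) := by
      simp [idx]
    rw [h1]
    unfold all
    rw [Fin.append_right]
    have h2 := finProdFinEquiv.symm_apply_apply (a, b)
    rw [finProdFinEquiv_symm_apply] at h2
    rw [Prod.mk.injEq] at h2
    rw [h2.1, h2.2]
    rfl
  · have h1 : idx k r N (Sum.inr i) = Fin.castAdd (r * N) i := by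
      simp [idx]
    rw [h1]
    unfold all
    rw [Fin.append_left]
    rfl

end Pool.Agent.Q197.SG
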