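import Pool.Agent.TH759.EV.NRows
import Pool.Agent.TH759.EV.Chain
import Pool.Agent.TH978.S13.Anti4
import Pool.Agent.TH469.SX.Fifteen

/-!
# Exact blocks with arbitrary multiplicities: emptiness without the apex, independence
-/

set_option autoImplicit false

namespace Pool.Agent.Q197.SG

open Finset Pool.Agent.TH176.Nag Pool.Agent.TH603.Sur Pool.Agent.TH603.Cut Pool.Agent.TH641.NW
  Pool.Agent.TH469.SX Pool.Agent.H932R3 Pool.Agent.TH978.S13
open Pool.Agent.TH864.SX (Fb Fa Slp)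
open Pool.Agent.TH759.EV (row_card_w sum_ge' Sur_rows_w sum_le')

variable {ι : Type} [Fintype ι]

/-- emptiness on the block without the apex -/
theorem Emp_Fl_w {w : ι → ℕ} {p q M : ℕ} {K A : ℝ} (hpq : p * q = 2) (hK0 : 0 < K)
    (hK : q * (K * (K - M)) = M) (hcard : Fintype.card ι = M + 2 * p)
    (hA : ((M : ℝ) + 2 * p) * (q * A - 1) < q * (K + p) * ((∑ i, w i : ℕ) : ℝ)) :
    Emp w (Fl q K A) := by
  refine Emp_slabs 1 (-(p : ℤ)) 1 0 (by ring) fun k B hB => ?_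
  rcases B.eq_empty_or_nonempty with rfl | hne
  · simp
  have h1 : (B.card : ℤ) ≤ ((∑ i, w i : ℕ) : ℤ) - (M + 2 * p) * k := by
    refine row_card_w hpq hK0 hK (by exact_mod_cast hA) hne fun c hc => ?_
    obtain ⟨s, T, hT, h1, h2⟩ := hB c hc
    simp only [one_mul, zero_mul, neg_mul, sub_neg_eq_add, zero_add] at h1 h2
    exact mem_row hpq hK0 hT h1 h2
  have h2 := sum_ge' w hcard k
  have h3 : (B.card : ℤ) ≤ ((∑ i, (w i - k) : ℕ) : ℤ) := by
    push_cast at h1 h2 ⊢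
    linarith
  exact_mod_cast h3

/-- independence on the block -/
theorem Sur_Fl_w {w : ι → ℕ} {p q M b : ℕ} {K A : ℝ} (hpq : p * q = 2) (hK0 : 0 < K)
    (hK : q * (K * (K - M)) = M) (hcard : Fintype.card ι = M + 2 * p) (hb : ∀ i, w i ≤ b + 1)
    (hA : q * (K + p) * ((∑ i, max (w i) b : ℕ) : ℝ) ≤ ((M : ℝ) + 2 * p) * (q * A - 1)) :
    Sur w (Fl q K A) := by
  have hp : 1 ≤ p := Nat.pos_of_ne_zero (by rintro rfl; simp at hpq)
  have hq : 1 ≤ q := Nat.pos_of_ne_zero (by rintro rfl; simp at hpq)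
  have hpR : (1 : ℝ) ≤ p := by exact_mod_cast hp
  have hqR : (1 : ℝ) ≤ q := by exact_mod_cast hq
  have hid := key_id hpq hK
  refine Sur_rows_w hpq hK0 fun k hk => ?_
  have hpos : 0 < ∑ i, (w i - k) := by
    obtain ⟨i, hi⟩ := hk
    exact sum_pos' (fun _ _ => Nat.zero_le _) ⟨i, mem_univ i, by omega⟩
  refine (sum_le' w hcard hb hpos).trans ?_
  obtain ⟨W, hW⟩ : ∃ W : ℕ, W = ∑ i, max (w i) b := ⟨_, rfl⟩
  rw [← hW] at hA ⊢
  obtain ⟨D, hD⟩ : ∃ D : ℝ, D = q * (K + p) - 1 := ⟨_, rfl⟩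
  have hD0 : 0 < D := by rw [hD]; nlinarith
  rw [← hD] at hid ⊢
  obtain ⟨Y, hY⟩ : ∃ Y : ℤ, Y = ⌊A - (K + p) * k⌋ := ⟨_, rfl⟩
  obtain ⟨U, hU⟩ : ∃ U : ℤ, U = ⌊(A - (K + p) * k - (K + p)) / D⌋ := ⟨_, rfl⟩
  have hsum : (W : ℝ) - (M + 2 * p) * k - 1 < ((Y + U + 1 : ℤ) : ℝ) := by
    have h1 := Int.lt_floor_add_one (A - (K + p) * k)
    have h2 := Int.lt_floor_add_one ((A - (K + p) * k - (K + p)) / D)
    rw [← hY] at h1
    rw [← hU] at h2
    rw [div_lt_iff₀ hD0] at h2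
    push_cast
    have h4 : (A - (K + p) * k) * D < ((Y : ℝ) + 1) * D := mul_lt_mul_of_pos_right h1 hD0
    -- multiply the goal by `q (K + p) D`
    have hqK : 0 < q * (K + p) := by nlinarith
    have e2 : (A - (K + p) * k) * D + (A - (K + p) * k - (K + p)) - D =
        (q * A - 1) * (K + p) - q * (K + p) ^ 2 * k - D := by rw [hD]; ring
    have h5 : ((W : ℝ) - (M + 2 * p) * k - 1) * D ≤
        (q * A - 1) * (K + p) - q * (K + p) ^ 2 * k - D := by
      have h6 : (W : ℝ) * D * (q * (K + p)) ≤ (q * A - 1) * (K + p) * (q * (K + p)) := by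
        have h7 := mul_le_mul_of_nonneg_right hA hD0.le
        have e3 : ((M : ℝ) + 2 * p) * (q * A - 1) * D = (q * A - 1) * (K + p) * (q * (K + p)) := by
          linear_combination (-(q * A - 1)) * hid
        rw [e3] at h7
        linarith
      have h8 : (W : ℝ) * D ≤ (q * A - 1) * (K + p) := le_of_mul_le_mul_right h6 hqK
      have e4 : ((W : ℝ) - (M + 2 * p) * k - 1) * D = W * D - q * (K + p) ^ 2 * k - D := by
        rw [hid]; ring
      rw [e4]
      linarith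
    have h3 : ((W : ℝ) - (M + 2 * p) * k - 1) * D < ((Y : ℝ) + U + 1) * D := by
      linarith
    exact lt_of_mul_lt_mul_right h3 hD0.le
  rw [← hY, ← hU]
  have : (((W : ℤ) - (M + 2 * p : ℕ) * k - 1 : ℤ) : ℝ) < ((Y + U + 1 : ℤ) : ℝ) := by
    push_cast at hsum ⊢
    linarith
  have := Int.cast_lt.1 this
  omega

/-- the columns of the block, without the apex -/
theorem Emp_blk1 {κ : Type} {w : κ → ℕ} {M q : ℕ} {K : ℝ} {d : ℕ} (h : Slp M q K) (hE : Emp w (Fb q K d)) :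
    Emp w {p | p ∈ TH864.SX.Blk M K d ∧ 1 ≤ p.1} := by
  have hM : (0 : ℝ) < M := by exact_mod_cast h.hM
  have hK := h.K0
  have hq : (0 : ℝ) < q := by exact_mod_cast h.hq
  refine Emp_flat (S' := Fb q K d) 1 0 1 0 (by norm_num) ?_ hE
  rintro ⟨t, j⟩ T k ⟨⟨g1, g2, -⟩, g0⟩ ⟨⟨-, -, g3⟩, -⟩ hk
  simp only at g0 g1 g2 g3
  have e : ((1 * t + 0 * j, (k : ℤ)) : ℤ × ℤ) = (t, (k : ℤ)) := by simp
  simp only
  rw [e]
  have hkR : (k : ℝ) ≤ T := by exact_mod_cast hk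
  have hj0 : (0 : ℝ) ≤ j := by exact_mod_cast g1
  push_cast at g2 g3
  simp only [zero_mul, sub_zero, one_mul] at g2 g3
  have g2' := h.low.1 g2
  have g3' := h.up.1 g3
  refine ⟨g0, by simp, ?_, ?_⟩
  · simp only
    have h5 : (k : ℝ) ≤ q * t := by linarith
    have h6 : (k : ℤ) ≤ q * t := by exact_mod_cast h5
    rcases h6.lt_or_eq with h7 | h7
    · exact h7
    · exfalso
      have h8 : (k : ℝ) = q * t := by exact_mod_cast h7
      refine h.ne (d := d) (t := t) (z := j) (by omega) ?_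
      linarith
  · simp only
    have h5 : (t : ℝ) ≤ K * ((d : ℝ) / 3 - (j + T)) := g3
    have h6 : K * (k : ℝ) ≤ K * (j + T) := mul_le_mul_of_nonneg_left (by linarith) hK.le
    push_cast
    linarith

/-- one more simple point and the apex -/
theorem Emp_apex1 {κ : Type} {w : κ → ℕ} {q : ℕ} {K : ℝ} {d : ℕ} (hE : Emp w (Fb q K d)) :
    Emp (Sum.elim w (fun _ : Fin 1 => 1)) (Fa q K d) := by
  refine (Emp_insert (k := 0) ((0, 0) : ℤ × ℤ) (Emp_zero_iff.2 hE)).mono ?_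
  rintro p (hp | ⟨-, hp⟩)
  · exact Or.inr hp
  · exact Or.inl hp

end Pool.Agent.Q197.SG
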