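import Pool.Agent.Q197.SG.Win
import Pool.Agent.TH603.Sur.Uni

/-!
# The dimension is constant on an open set
-/

set_option autoImplicit false

namespace Pool.Agent.Q197.SG

open Pool.Agent.H932R2 Pool.Agent.H932R3 Pool.Agent.TH641.UM
open Polynomial (C X)

theorem noForm_iff {n : ℕ} {w : Fin n → ℕ} {d : ℕ} {P : Fin n → Fin 2 → ℂ} :
    NoForm (vIdeal 1 w (fun i => P i 0) (fun i => C (P i 1))) d ↔ dimL ℂ w P d = 0 := by
  have hfd : Module.Finite ℂ (MvPolynomial.homogeneousSubmodule (Fin 3) ℂ d) := by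
    apply Module.finite_of_finrank_pos
    rw [Pool.Agent.TH603.Sur.finrank_forms]
    exact Nat.choose_pos (by omega)
  have hmem : ∀ F ∈ MvPolynomial.homogeneousSubmodule (Fin 3) ℂ d,
      (F ∈ (⨅ i : Fin n,
          (Ideal.span
            ({MvPolynomial.X 0 - MvPolynomial.C (P i 0) * MvPolynomial.X 2,
              MvPolynomial.X 1 - MvPolynomial.C (P i 1) * MvPolynomial.X 2} :
              Set (MvPolynomial (Fin 3) ℂ))) ^ (w i)) ↔
        deh ℂ F ∈ vIdeal 1 w (fun i => P i 0) (fun i => C (P i 1))) := by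
    intro F hF
    unfold vIdeal
    rw [Ideal.mem_iInf, Ideal.mem_iInf]
    exact forall_congr' fun i => mem_ptIdeal_iff hF
  constructor
  · intro h
    have h1 : (MvPolynomial.homogeneousSubmodule (Fin 3) ℂ d ⊓
      Submodule.restrictScalars ℂ
        (⨅ i : Fin n,
          (Ideal.span
            ({MvPolynomial.X 0 - MvPolynomial.C (P i 0) * MvPolynomial.X 2,
              MvPolynomial.X 1 - MvPolynomial.C (P i 1) * MvPolynomial.X 2} :
              Set (MvPolynomial (Fin 3) ℂ))) ^ (w i))) = ⊥ := by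
      rw [eq_bot_iff]
      rintro F ⟨hF, hF'⟩
      exact h F hF ((hmem F hF).1 hF')
    unfold dimL
    rw [h1, finrank_bot]
  · intro h F hF hF'
    have hfd' : FiniteDimensional ℂ ↥(MvPolynomial.homogeneousSubmodule (Fin 3) ℂ d ⊓
      Submodule.restrictScalars ℂ
        (⨅ i : Fin n,
          (Ideal.span
            ({MvPolynomial.X 0 - MvPolynomial.C (P i 0) * MvPolynomial.X 2,
              MvPolynomial.X 1 - MvPolynomial.C (P i 1) * MvPolynomial.X 2} :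
              Set (MvPolynomial (Fin 3) ℂ))) ^ (w i))) := Submodule.finiteDimensional_inf_left _ _
    unfold dimL at h
    rw [Submodule.finrank_eq_zero] at h
    have h1 : F ∈ (MvPolynomial.homogeneousSubmodule (Fin 3) ℂ d ⊓
      Submodule.restrictScalars ℂ
        (⨅ i : Fin n,
          (Ideal.span
            ({MvPolynomial.X 0 - MvPolynomial.C (P i 0) * MvPolynomial.X 2,
              MvPolynomial.X 1 - MvPolynomial.C (P i 1) * MvPolynomial.X 2} :
              Set (MvPolynomial (Fin 3) ℂ))) ^ (w i))) := ⟨hF, (hmem F hF).2 hF'⟩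
    rw [h, Submodule.mem_bot] at h1
    exact h1

/-- emptiness at one tuple of points gives emptiness on an open set -/
theorem zero_open {n : ℕ} {w : Fin n → ℕ} {d : ℕ} {P0 : Fin n → Fin 2 → ℂ} (h : dimL ℂ w P0 d = 0) :
    ∃ F : MvPolynomial (Fin n × Fin 2) ℂ, F ≠ 0 ∧ ∀ P : Fin n → Fin 2 → ℂ,
      MvPolynomial.eval (fun ij : Fin n × Fin 2 => P ij.1 ij.2) F ≠ 0 → dimL ℂ w P d = 0 := by
  have h1 := (noForm_iff.2 h).rk
  obtain ⟨F, hF, hF'⟩ := exists_openV (σ := Fin n × Fin 2) (K := ℂ) 1 w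
    (fun i => MvPolynomial.X (i, 0)) (fun i => C (MvPolynomial.X (i, 1))) (Tset d) (Tfin d).card
    (fun ij => P0 ij.1 ij.2) (by simpa using h1)
  refine ⟨F, hF, fun P hP => noForm_iff.1 (NoForm.of_rk ?_)⟩
  have h2 := hF' _ hP
  simpa using h2

/-- at most one degree is open -/
theorem Open.unique {n m d d' : ℕ} (hn : n = 11 ∨ n = 15) (h : Open n m d) (h' : Open n m d') : d = d' := by
  have key : ∀ {d : ℕ}, Open n m d → √(n : ℝ) * m ≤ d ∧ 2 * (d : ℝ) + 3 < √(n : ℝ) * (2 * m + 1) := by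
    rintro d ⟨-, h2, h3⟩
    refine ⟨?_, h2⟩
    have b11 : (3.3166 : ℝ) < √11 ∧ √11 < (3.3167 : ℝ) := Pool.Agent.Q195.WN.b11
    have b15 : (3.872 : ℝ) < √15 ∧ √15 < (3.873 : ℝ) := Pool.Agent.Q195.WN.b15
    rcases h3 with ⟨rfl, h3 | ⟨rfl, rfl⟩ | ⟨rfl, rfl⟩⟩ | ⟨rfl, h3⟩ | ⟨rfl, -⟩
    · push_cast
      linarith [b11.1]
    · push_cast
      linarith [b11.2]
    · push_cast
      linarith [b11.2]
    · push_cast
      linarith [b15.2]
    · omega
  obtain ⟨a1, a2⟩ := key h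
  obtain ⟨b1, b2⟩ := key h'
  have h5 : √(n : ℝ) < 5 := by
    rw [Real.sqrt_lt' (by norm_num)]
    rcases hn with rfl | rfl <;> norm_num
  have c1 : (d : ℝ) < d' + 1 := by nlinarith
  have c2 : (d' : ℝ) < d + 1 := by nlinarith
  have c3 : d < d' + 1 := by exact_mod_cast c1
  have c4 : d' < d + 1 := by exact_mod_cast c2
  omega

/-- **dichotomy** for the multiplicity `m` -/
theorem uni_gen {n : ℕ} (hn : n = 11 ∨ n = 15) (m : ℕ) :
    ∃ F : MvPolynomial (Fin n × Fin 2) ℂ, F ≠ 0 ∧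
      ((∀ P : Fin n → Fin 2 → ℂ, MvPolynomial.eval (fun ij : Fin n × Fin 2 => P ij.1 ij.2) F ≠ 0 →
        ∀ d : ℕ, ExpDim ℂ (fun _ => m) P d) ∨
      ∃ d₀ : ℕ, Open n m d₀ ∧ (d₀ + 2).choose 2 ≤ n * (m + 1).choose 2 ∧
        ∀ P : Fin n → Fin 2 → ℂ, MvPolynomial.eval (fun ij : Fin n × Fin 2 => P ij.1 ij.2) F ≠ 0 →
          dimL ℂ (fun _ => m) P d₀ = 1 ∧ ∀ d : ℕ, d ≠ d₀ → ExpDim ℂ (fun _ => m) P d) := by
  obtain ⟨F0, hF0, h0⟩ := uni_win (n := n) (by omega) m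
  have hF1 : F0.map (algebraMap ℚ ℂ) ≠ 0 := map_ne_zero_of hF0
  have h1 : ∀ P : Fin n → Fin 2 → ℂ, MvPolynomial.eval (fun ij : Fin n × Fin 2 => P ij.1 ij.2)
      (F0.map (algebraMap ℚ ℂ)) ≠ 0 → ∀ d : ℕ, ExpDim ℂ (fun _ => m) P d ∨
        (dimL ℂ (fun _ => m) P d = 1 ∧ (d + 2).choose 2 ≤ n * (m + 1).choose 2 ∧ Open n m d) := by
    intro P hP d
    rw [MvPolynomial.eval_map] at hP
    exact h0 P hP d (by omega)
  by_cases hex : ∃ (d₀ : ℕ) (P : Fin n → Fin 2 → ℂ), MvPolynomial.eval (fun ij : Fin n × Fin 2 => P ij.1 ij.2)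
      (F0.map (algebraMap ℚ ℂ)) ≠ 0 ∧ ¬ ExpDim ℂ (fun _ => m) P d₀
  · obtain ⟨d₀, P₁, hP₁, hE₁⟩ := hex
    obtain ⟨g1, g2, g3⟩ := (h1 P₁ hP₁ d₀).resolve_left hE₁
    have hother : ∀ P : Fin n → Fin 2 → ℂ, MvPolynomial.eval (fun ij : Fin n × Fin 2 => P ij.1 ij.2)
        (F0.map (algebraMap ℚ ℂ)) ≠ 0 → ∀ d : ℕ, d ≠ d₀ → ExpDim ℂ (fun _ => m) P d := by
      intro P hP d hd
      rcases h1 P hP d with h | ⟨-, -, h⟩
      · exact h
      · exact absurd (Open.unique hn h g3) hd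
    by_cases hz : ∃ P₀ : Fin n → Fin 2 → ℂ, dimL ℂ (fun _ => m) P₀ d₀ = 0
    · obtain ⟨P₀, hP₀⟩ := hz
      obtain ⟨F2, hF2, h2⟩ := zero_open hP₀
      refine ⟨F0.map (algebraMap ℚ ℂ) * F2, mul_ne_zero hF1 hF2, Or.inl fun P hP d => ?_⟩
      rw [map_mul] at hP
      by_cases hd : d = d₀
      · subst hd
        rw [expDim_iff, h2 P (right_ne_zero_of_mul hP), Finset.sum_const, Finset.card_univ,
          Fintype.card_fin, smul_eq_mul]
        omega
      · exact hother P (left_ne_zero_of_mul hP) d hd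
    · refine ⟨F0.map (algebraMap ℚ ℂ), hF1, Or.inr ⟨d₀, g3, g2, fun P hP => ⟨?_, hother P hP⟩⟩⟩
      rcases h1 P hP d₀ with h | ⟨h, -, -⟩
      · exfalso
        rw [expDim_iff, Finset.sum_const, Finset.card_univ, Fintype.card_fin, smul_eq_mul,
          Nat.sub_eq_zero_of_le g2] at h
        exact hz ⟨P, h⟩
      · exact h
  · push Not at hex
    exact ⟨F0.map (algebraMap ℚ ℂ), hF1, Or.inl fun P hP d => hex d P hP⟩

end Pool.Agent.Q197.SG
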