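import Pool.Agent.Q197.SG.Uni

/-!
# Near-uniform multiplicities at 11 and 15 points, and simple points
-/

set_option autoImplicit false

namespace Pool.Agent.Q197.SG

open Finset Pool.Agent.TH176.Nag Pool.Agent.TH603.Sur Pool.Agent.TH603.Cut Pool.Agent.TH641.NW
  Pool.Agent.TH469.SX Pool.Agent.H932R3 Pool.Agent.TH978.S13 Pool.Agent.TH641.UM
open Pool.Agent.TH864.SX (Fb Fa Slp)

/-- more exponents and simple points, independence -/
theorem Sur_more {ι : Type} [Fintype ι] {w : ι → ℕ} {d p : ℕ} (h : Sur w (TZ d))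
    (hp : cond w + p ≤ (d + 2).choose 2) : Sur (Sum.elim w (fun _ : Fin p => 1)) (TZ d) := by
  classical
  obtain ⟨T, hT, hcard, hE⟩ := h
  have hTS : T ⊆ TF d := by
    intro x hx
    rw [← Finset.mem_coe, coe_TF]
    exact hT (Finset.mem_coe.2 hx)
  have h1 : p ≤ (TF d \ T).card := by
    rw [card_sdiff_of_subset hTS, hcard, card_TF]
    omega
  obtain ⟨U, hU1, hU2⟩ := exists_subset_card_eq h1
  have h2 := Emp_union hE U
  rw [hU2] at h2
  have hdis : Disjoint T U := by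
    rw [disjoint_left]
    intro x hx hxU
    exact (mem_sdiff.1 (hU1 hxU)).2 hx
  refine ⟨T ∪ U, ?_, ?_, h2⟩
  · intro x hx
    rw [Finset.mem_coe, mem_union] at hx
    rcases hx with hx | hx
    · exact hT (Finset.mem_coe.2 hx)
    · rw [← coe_TF, Finset.mem_coe]
      exact (mem_sdiff.1 (hU1 hx)).1
  · rw [card_union_of_disjoint hdis, hcard, hU2]
    unfold Pool.Agent.TH603.Sur.cond
    simp

/-- one or more simple points -/
theorem dich_simple {ι : Type} [Fintype ι] {w : ι → ℕ} {d p : ℕ} (hp : 1 ≤ p)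
    (h : Emp (Sum.elim w (fun _ : Fin 1 => 1)) (TZ d) ∨ Sur w (TZ d)) :
    Emp (Sum.elim w (fun _ : Fin p => 1)) (TZ d) ∨ Sur (Sum.elim w (fun _ : Fin p => 1)) (TZ d) := by
  rcases h with h | h
  · left
    refine Emp_emb (g := Sum.map id (Fin.castLE hp)) ?_ ?_ h
    · exact Sum.map_injective.2 ⟨Function.injective_id, Fin.castLE_injective hp⟩
    · rintro (i | i) <;> simp
  · rcases le_total ((d + 2).choose 2) (cond w + p) with h1 | h1
    · exact Or.inl (Emp_ones h h1)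
    · exact Or.inr (Sur_more h h1)

/-- near-uniform multiplicities at `n` points, with the condition for 15 points -/
def NU (n m : ℕ) (v : Fin n → ℕ) : Prop :=
  (∀ i, v i = m ∨ v i = m + 1) ∧ (n = 11 ∨ (n = 15 ∧ 3 ∣ (univ.filter fun i => v i = m + 1).card))

/-- the three alternatives at 11 points -/
theorem near11 {m : ℕ} {w : Fin 11 → ℕ} (hw : ∀ i, w i = m ∨ w i = m + 1) (d : ℕ) :
    (√11 * (2 * d + 3) < 11 + 2 * ∑ i, (w i : ℝ) → Emp (Sum.elim w (fun _ : Fin 1 => 1)) (TZ d)) ∧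
    (√11 * (2 * d + 3) < 11 + 2 * ∑ i, (w i : ℝ) → ¬ 3 ∣ d → Emp w (TZ d)) ∧
    (11 + 2 * ∑ i, (w i : ℝ) ≤ √11 * (2 * d + 3) → Sur w (TZ d)) := by
  obtain ⟨hs, h1⟩ := slN (M := 9) (by norm_num)
  have h12 : KN 9 < 12 := by push_cast at h1; linarith
  have e : (((9 : ℕ) : ℝ) * ((9 + 2 : ℕ) : ℝ)) = 9 * 11 := by norm_num
  have e2 : 3 * √(11 : ℝ) * (2 * (d / 3) + 1) = √11 * (2 * d + 3) := by ring
  refine ⟨Emp11 w d, fun hX h3 => ?_, fun hX => ?_⟩
  · refine Pool.Agent.TH864.SX.Emp_TZ9 hs.slp h12 ?_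
    rw [Pool.Agent.TH864.SX.Fa_eq h3]
    refine hs.Emp (Fintype.card_fin _) ?_
    rw [e, sqrt_nine_mul, e2]
    push_cast
    linarith
  · refine Pool.Agent.TH864.SX.Sur_TZ9 hs.slp h12 (Sur.mono (hs.Sur (b := m) (Fintype.card_fin _) ?_ ?_)
      Pool.Agent.TH864.SX.Fb_subset)
    · intro i
      rcases hw i with h | h <;> omega
    · rw [e, sqrt_nine_mul, e2]
      have e3 : ∀ i, max (w i) m = w i := by
        intro i
        rcases hw i with h | h <;> omega
      simp only [e3]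
      push_cast
      linarith

/-- the multiplicities at 15 points in three equal groups -/
theorem exists_groups {v : Fin 15 → ℕ} {m : ℕ} (hv : ∀ i, v i = m ∨ v i = m + 1)
    (h3 : 3 ∣ (univ.filter fun i => v i = m + 1).card) :
    ∃ (w : Fin 5 → ℕ) (e : (Fin 5 ⊕ Fin 5) ⊕ Fin 5 ≃ Fin 15), (∀ i, w i = m ∨ w i = m + 1) ∧
      ∀ a, v (e a) = Sum.elim (Sum.elim w w) w a := by
  obtain ⟨b, hb⟩ := h3
  have hb7 : b ≤ 5 := by
    have h1 := card_filter_le (univ : Finset (Fin 15)) fun i => v i = m + 1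
    rw [hb, card_univ, Fintype.card_fin] at h1
    omega
  obtain ⟨w, hw⟩ : ∃ w : Fin 5 → ℕ, w = fun i : Fin 5 => if (i : ℕ) < b then m + 1 else m := ⟨_, rfl⟩
  have hw' : ∀ i, w i = m ∨ w i = m + 1 := by
    intro i
    rw [hw]
    by_cases h : (i : ℕ) < b
    · right; simp [h]
    · left; simp [h]
  have hwc : (univ.filter fun i => w i = m + 1).card = b := by
    have e : (univ.filter fun i : Fin 5 => w i = m + 1) = univ.filter fun i : Fin 5 => (i : ℕ) < b := by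
      ext i
      rw [mem_filter, mem_filter, hw]
      by_cases h : (i : ℕ) < b
      · simp [h]
      · simp [h]
    rw [e]
    interval_cases b <;> decide
  obtain ⟨f, hf⟩ : ∃ f : (Fin 5 ⊕ Fin 5) ⊕ Fin 5 → ℕ, f = Sum.elim (Sum.elim w w) w := ⟨_, rfl⟩
  have hf' : ∀ i, f i = m ∨ f i = m + 1 := by
    rw [hf]
    rintro ((i | i) | i)
    · exact hw' i
    · exact hw' i
    · exact hw' i
  have c1 : Fintype.card {a // f a = m + 1} = 3 * b := by
    rw [Fintype.card_subtype, ← hwc, hf]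
    have e : (univ.filter fun a : (Fin 5 ⊕ Fin 5) ⊕ Fin 5 => Sum.elim (Sum.elim w w) w a = m + 1) =
        ((univ.filter fun i => w i = m + 1).disjSum (univ.filter fun i => w i = m + 1)).disjSum
          (univ.filter fun i => w i = m + 1) := by
      ext a
      rcases a with (a | a) | a <;> simp
    rw [e, card_disjSum, card_disjSum]
    ring
  have c2 : Fintype.card {a // v a = m + 1} = 3 * b := by
    rw [Fintype.card_subtype, hb]
  have c3 : ∀ (α : Type) [Fintype α] [DecidableEq α] (g : α → ℕ), (∀ i, g i = m ∨ g i = m + 1) →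
      Fintype.card {a // g a = m} + Fintype.card {a // g a = m + 1} = Fintype.card α := by
    intro α _ _ g hg
    rw [Fintype.card_subtype, Fintype.card_subtype, ← card_union_of_disjoint, ← card_univ]
    · congr 1
      ext i
      simp [hg i]
    · rw [disjoint_filter]
      intro i _ h1 h2
      omega
  have h21 : Fintype.card ((Fin 5 ⊕ Fin 5) ⊕ Fin 5) = 15 := by simp
  have d1 := c3 _ f hf'
  have d2 := c3 _ v hv
  rw [h21, c1] at d1
  rw [Fintype.card_fin, c2] at d2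
  have hfib : ∀ c : ℕ, Nonempty ({a // f a = c} ≃ {a // v a = c}) := by
    intro c
    by_cases h1 : c = m + 1
    · subst h1
      exact ⟨Fintype.equivOfCardEq (by rw [c1, c2])⟩
    by_cases h2 : c = m
    · subst h2
      exact ⟨Fintype.equivOfCardEq (by omega)⟩
    · have e1 : IsEmpty {a // f a = c} := ⟨fun ⟨a, ha⟩ => by rcases hf' a with h | h <;> omega⟩
      have e2 : IsEmpty {a // v a = c} := ⟨fun ⟨a, ha⟩ => by rcases hv a with h | h <;> omega⟩
      exact ⟨Equiv.equivOfIsEmpty _ _⟩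
  refine ⟨w, Equiv.ofFiberEquiv fun c => (hfib c).some, hw', fun a => ?_⟩
  rw [← hf]
  exact Equiv.ofFiberEquiv_map _ a

/-- the three alternatives at 15 points -/
theorem near15 {m : ℕ} {v : Fin 15 → ℕ} (hv : ∀ i, v i = m ∨ v i = m + 1)
    (h3 : 3 ∣ (univ.filter fun i => v i = m + 1).card) (d : ℕ) :
    (√15 * (2 * d + 3) < 15 + 2 * ∑ i, (v i : ℝ) → Emp (Sum.elim v (fun _ : Fin 1 => 1)) (TZ d)) ∧
    (√15 * (2 * d + 3) < 15 + 2 * ∑ i, (v i : ℝ) → ¬ 3 ∣ d → Emp v (TZ d)) ∧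
    (15 + 2 * ∑ i, (v i : ℝ) ≤ √15 * (2 * d + 3) → Sur v (TZ d)) := by
  obtain ⟨w, e, hw, he⟩ := exists_groups hv h3
  have hsum : ∑ i, (v i : ℝ) = 3 * ∑ i, (w i : ℝ) := by
    rw [← e.sum_comp]
    have : ∀ a, (v (e a) : ℝ) = Sum.elim (Sum.elim (fun i => (w i : ℝ)) (fun i => (w i : ℝ)))
        (fun i => (w i : ℝ)) a := by
      intro a
      rw [he]
      rcases a with (a | a) | a <;> rfl
    simp only [this, Fintype.sum_sum_type, Sum.elim_inl, Sum.elim_inr]
    ring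
  rw [hsum]
  obtain ⟨hs, h1⟩ := slN (M := 3) (by norm_num)
  have h6 : KN 3 < 6 := by push_cast at h1; linarith
  have e1 : (((3 : ℕ) : ℝ) * ((3 + 2 : ℕ) : ℝ)) = 15 := by norm_num
  have e2 : √(15 : ℝ) * (2 * (d / 3) + 1) = √15 * (2 * d + 3) / 3 := by ring
  have hE : √15 * (2 * d + 3) < 15 + 2 * (3 * ∑ i, (w i : ℝ)) → Emp w (Fb 2 (KN 3) d) := by
    intro hX
    refine hs.Emp (Fintype.card_fin _) ?_
    rw [e1, e2]
    push_cast
    linarith
  refine ⟨fun hX => ?_, fun hX hd => ?_, fun hX => ?_⟩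
  · refine Emp_reidx e (fun a => (he a).ge) (Emp15' w d ?_)
    linarith
  · refine Emp_emb (g := e) e.injective (fun a => (he a).ge) (Emp_TZ3 hs.slp h6 ?_)
    rw [Pool.Agent.TH864.SX.Fa_eq hd]
    exact hE hX
  · have hS : Sur w (Fb 2 (KN 3) d) := by
      refine hs.Sur (b := m) (Fintype.card_fin _) ?_ ?_
      · intro i
        rcases hw i with h | h <;> omega
      · rw [e1, e2]
        have e3 : ∀ i, max (w i) m = w i := by
          intro i
          rcases hw i with h | h <;> omega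
        simp only [e3]
        push_cast
        linarith
    exact Sur_equiv e (fun a => (he a).symm) (Sur_TZ3 hs.slp h6 hS)

/-- the three alternatives -/
theorem near_alt {n m : ℕ} {v : Fin n → ℕ} (hv : NU n m v) (d : ℕ) :
    (√(n : ℝ) * (2 * d + 3) < n + 2 * ∑ i, (v i : ℝ) → Emp (Sum.elim v (fun _ : Fin 1 => 1)) (TZ d)) ∧
    (√(n : ℝ) * (2 * d + 3) < n + 2 * ∑ i, (v i : ℝ) → ¬ 3 ∣ d → Emp v (TZ d)) ∧
    (n + 2 * ∑ i, (v i : ℝ) ≤ √(n : ℝ) * (2 * d + 3) → Sur v (TZ d)) := by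
  obtain ⟨h1, rfl | ⟨rfl, h2⟩⟩ := hv
  · have := near11 h1 d
    push_cast
    exact this
  · have := near15 h1 h2 d
    push_cast
    exact this

theorem NU.n1 {n m : ℕ} {v : Fin n → ℕ} (hv : NU n m v) : 10 ≤ n := by
  obtain ⟨-, h | h⟩ := hv <;> omega

/-- **simple points**: the expected dimension in all degrees -/
theorem near_simple {n m : ℕ} {v : Fin n → ℕ} (hv : NU n m v) {p : ℕ} (hp : 1 ≤ p) :
    ∃ F : MvPolynomial (Fin (n + p) × Fin 2) ℚ, F ≠ 0 ∧ ∀ {L : Type} [Field L] [CharZero L]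
      (P : Fin (n + p) → Fin 2 → L),
      MvPolynomial.aeval (fun ij : Fin (n + p) × Fin 2 => P ij.1 ij.2) F ≠ 0 →
      ∀ d : ℕ, ExpDim L (Fin.append v (fun _ : Fin p => 1)) P d := by
  refine Pool.Agent.TH864.SX.expDim_of_or fun d => ?_
  have h1 : Emp (Sum.elim v (fun _ : Fin 1 => 1)) (TZ d) ∨ Sur v (TZ d) := by
    obtain ⟨h1, -, h3⟩ := near_alt hv d
    rcases lt_or_ge (√(n : ℝ) * (2 * d + 3)) (n + 2 * ∑ i, (v i : ℝ)) with hX | hX
    · exact Or.inl (h1 hX)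
    · exact Or.inr (h3 hX)
  have hw : ∀ i : Fin n ⊕ Fin p, Sum.elim v (fun _ : Fin p => 1) i =
      Fin.append v (fun _ : Fin p => 1) (finSumFinEquiv i) := by
    rintro (i | i)
    · simp
    · simp
  rcases dich_simple hp h1 with h2 | h2
  · exact Or.inl (Emp_equiv finSumFinEquiv hw h2)
  · exact Or.inr (Sur_equiv finSumFinEquiv hw h2)

/-- **near-uniform**: the expected dimension or one curve -/
theorem near_one {n m : ℕ} {v : Fin n → ℕ} (hv : NU n m v) :
    ∃ F : MvPolynomial (Fin n × Fin 2) ℚ, F ≠ 0 ∧ ∀ {L : Type} [Field L] [CharZero L]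
      (P : Fin n → Fin 2 → L), MvPolynomial.aeval (fun ij : Fin n × Fin 2 => P ij.1 ij.2) F ≠ 0 →
      ∀ d : ℕ, ExpDim L v P d ∨
        (dimL L v P d = 1 ∧ (d + 2).choose 2 ≤ ∑ i, (v i + 1).choose 2 ∧ 3 ∣ d ∧
          ∑ i, (v i : ℝ) ≤ √(n : ℝ) * d ∧ √(n : ℝ) * (2 * d + 3) < n + 2 * ∑ i, (v i : ℝ)) := by
  have h10 := hv.n1
  have hn1 : 1 ≤ √(n : ℝ) := by
    rw [Real.one_le_sqrt]
    exact_mod_cast (show 1 ≤ n by omega)
  obtain ⟨F1, hF1, h1⟩ := Pool.Agent.TH864.SX.expDim_of_or' (n := n) (w := v)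
    (G := fun d => ¬ 3 ∣ d ∨ √(n : ℝ) * d < ∑ i, (v i : ℝ) ∨
      n + 2 * ∑ i, (v i : ℝ) ≤ √(n : ℝ) * (2 * d + 3)) (by
      intro d hd
      obtain ⟨a1, a2, a3⟩ := near_alt hv d
      rcases lt_or_ge (√(n : ℝ) * (2 * d + 3)) (n + 2 * ∑ i, (v i : ℝ)) with hX | hX
      · left
        rcases hd with hd | hd | hd
        · exact a2 hX hd
        · refine Pool.Agent.TH603.EL.Emp_plane (by rw [Fintype.card_fin]; omega) ?_
          rw [Fintype.card_fin]
          push_cast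
          exact hd
        · exact absurd hX (not_lt.2 hd)
      · exact Or.inr (a3 hX))
  obtain ⟨F2, hF2, h2⟩ := one_all (w := v)
    (A := fun d => √(n : ℝ) * (2 * d + 3) < n + 2 * ∑ i, (v i : ℝ)) (n + ∑ i, v i) (by
      intro d hd
      have g2 : (2 * (d : ℝ) + 3) ≤ √(n : ℝ) * (2 * d + 3) := le_mul_of_one_le_left (by positivity) hn1
      have g3 : (d : ℝ) ≤ ((n + ∑ i, v i : ℕ) : ℝ) := by
        push_cast
        have : (0 : ℝ) ≤ n := Nat.cast_nonneg _
        linarith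
      exact_mod_cast g3) (fun d hd => (near_alt hv d).1 hd)
  refine ⟨F1 * F2, mul_ne_zero hF1 hF2, fun {L} _ _ P hP d => ?_⟩
  rw [map_mul] at hP
  by_cases hG : ¬ 3 ∣ d ∨ √(n : ℝ) * d < ∑ i, (v i : ℝ) ∨
      n + 2 * ∑ i, (v i : ℝ) ≤ √(n : ℝ) * (2 * d + 3)
  · exact Or.inl (h1 P (left_ne_zero_of_mul hP) d hG)
  · push Not at hG
    obtain ⟨g1, g2, g3⟩ := hG
    have h3 := h2 P (right_ne_zero_of_mul hP) d d g3 le_rfl
    rcases expDim_or_one h3 with h5 | ⟨h5, h6⟩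
    · exact Or.inl h5
    · exact Or.inr ⟨h6, h5, g1, g2, g3⟩

end Pool.Agent.Q197.SG
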