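import Pool.Agent.Q197.SG.Anti
import Pool.Agent.Q197.SG.Near

/-!
# Anticanonical degrees, groups of points and simple points
-/

set_option autoImplicit false

namespace Pool.Agent.Q197.SG

open Finset Pool.Agent.TH176.Nag Pool.Agent.TH603.Sur Pool.Agent.TH603.Cut Pool.Agent.TH641.NW
  Pool.Agent.TH469.SX Pool.Agent.H932R3 Pool.Agent.TH978.S13
open Pool.Agent.TH864.SX (Fb Fa Slp)

theorem TZ_mono {d e : ℕ} (h : d ≤ e) : TZ d ⊆ TZ e := by
  rintro x ⟨h1, h2, h3⟩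
  refine ⟨h1, h2, ?_⟩
  omega

/-- all points with `p` simple points -/
def allp {r N k : ℕ} (h : ℕ) (w : Fin r → Fin N → ℕ) (p : ℕ) : Fin (k + r * N + p) → ℕ :=
  Fin.append (all (fun _ : Fin k => h) w) (fun _ : Fin p => 1)

/-- the indices -/
def idxp (k r N p : ℕ) : ((Fin r × Fin N) ⊕ Fin k) ⊕ Fin p ≃ Fin (k + r * N + p) :=
  (Equiv.sumCongr (idx k r N) (Equiv.refl _)).trans finSumFinEquiv

theorem allp_idxp {r N k : ℕ} (h : ℕ) (w : Fin r → Fin N → ℕ) (p : ℕ) (x : ((Fin r × Fin N) ⊕ Fin k) ⊕ Fin p) :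
    allp h w p (idxp k r N p x) =
      Sum.elim (Sum.elim (fun p : Fin r × Fin N => w p.1 p.2) (fun _ : Fin k => h)) (fun _ : Fin p => 1) x := by
  rcases x with x | i
  · have h1 : idxp k r N p (Sum.inl x) = Fin.castAdd p (idx k r N x) := by simp [idxp]
    rw [h1]
    unfold allp
    rw [Fin.append_left, all_idx]
    rfl
  · have h1 : idxp k r N p (Sum.inr i) = Fin.natAdd (k + r * N) i := by simp [idxp]
    rw [h1]
    unfold allp
    rw [Fin.append_right]
    rfl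

variable {M N q p' r k h : ℕ} {K ρ : ℝ}

theorem grp_anti (hs : Sl M N q p' K ρ) (hK1 : K < M + 1) (hk : (r + 1) * M + k = 9)
    (w : Fin (r + 1) → Fin N → ℕ) (b : Fin (r + 1) → ℕ) (hw : ∀ j i, w j i = b j ∨ w j i = b j + 1) (p : ℕ) :
    ∃ F : MvPolynomial (Fin (k + (r + 1) * N + p) × Fin 2) ℚ, F ≠ 0 ∧ ∀ {L : Type} [Field L] [CharZero L]
      (P : Fin (k + (r + 1) * N + p) → Fin 2 → L),
      MvPolynomial.aeval (fun ij : Fin (k + (r + 1) * N + p) × Fin 2 => P ij.1 ij.2) F ≠ 0 → ∀ d : ℕ,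
        ((∀ j, N + 2 * ∑ i, (w j i : ℝ) ≤ ρ * (2 * h + 1)) → 3 * h ≤ d → ExpDim L (allp h w p) P d) ∧
        ((∀ j, ρ * (2 * h + 1) < N + 2 * ∑ i, (w j i : ℝ)) → d ≤ 3 * h →
          ExpDim L (allp h w p) P d ∨ (p = 0 ∧ dimL L (allp h w p) P d = 1 ∧
            (d + 2).choose 2 ≤ ∑ i, (allp (k := k) h w p i + 1).choose 2)) := by
  classical
  have hmax : ∀ j, ∑ i, ((max (w j i) (b j) : ℕ) : ℝ) = ∑ i, (w j i : ℝ) := fun j =>
    sum_congr rfl fun i _ => by
      rcases hw j i with h1 | h1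
      · rw [h1, max_self]
      · rw [h1, max_eq_left (Nat.le_succ _)]
  have hS : (∀ j, N + 2 * ∑ i, (w j i : ℝ) ≤ ρ * (2 * h + 1)) →
      Sur (Sum.elim (fun p : Fin (r + 1) × Fin N => w p.1 p.2) (fun _ : Fin k => h)) (TZ (3 * h)) := fun hX =>
    Sur_anti hs hK1 hk w b (fun j i => by rcases hw j i with h1 | h1 <;> omega)
      (fun j => by rw [hmax]; exact hX j)
  have hE : (∀ j, ρ * (2 * h + 1) < N + 2 * ∑ i, (w j i : ℝ)) →
      Emp (Sum.elim (Sum.elim (fun p : Fin (r + 1) × Fin N => w p.1 p.2) (fun _ : Fin k => h))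
        (fun _ : Fin 1 => 1)) (TZ (3 * h)) := fun hX =>
    Emp_anti hs hK1 hk w hX (fun _ => h) (fun _ => le_rfl)
  obtain ⟨F1, hF1, h1⟩ := Pool.Agent.TH864.SX.expDim_of_or' (w := allp (k := k) h w p)
    (G := fun d => ((∀ j, N + 2 * ∑ i, (w j i : ℝ) ≤ ρ * (2 * h + 1)) ∧ 3 * h ≤ d) ∨
      ((∀ j, ρ * (2 * h + 1) < N + 2 * ∑ i, (w j i : ℝ)) ∧ d ≤ 3 * h ∧ 1 ≤ p)) (by
      intro d hd
      rcases hd with ⟨hX, hd⟩ | ⟨hX, hd, hp⟩
      · have h2 := (hS hX).mono (TZ_mono hd)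
        rcases Nat.eq_zero_or_pos p with hp | hp
        · right
          subst hp
          refine Sur_equiv (idxp k (r + 1) N 0) (fun x => (allp_idxp h w 0 x).symm) ?_
          refine Sur_equiv (Equiv.sumEmpty _ (Fin 0)).symm (fun x => rfl) h2
        · rcases dich_simple hp (Or.inr h2) with h3 | h3
          · exact Or.inl (Emp_equiv (idxp k (r + 1) N p) (fun x => (allp_idxp h w p x).symm) h3)
          · exact Or.inr (Sur_equiv (idxp k (r + 1) N p) (fun x => (allp_idxp h w p x).symm) h3)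
      · left
        have h2 := (hE hX).mono (TZ_mono hd)
        rcases dich_simple hp (Or.inl h2) with h3 | h3
        · exact Emp_equiv (idxp k (r + 1) N p) (fun x => (allp_idxp h w p x).symm) h3
        · refine Emp_equiv (idxp k (r + 1) N p) (fun x => (allp_idxp h w p x).symm) ?_
          refine Emp_emb (g := Sum.map id (Fin.castLE hp)) ?_ ?_ h2
          · exact Sum.map_injective.2 ⟨Function.injective_id, Fin.castLE_injective hp⟩
          · rintro (i | i) <;> simp)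
  by_cases hX : ∀ j, ρ * (2 * h + 1) < N + 2 * ∑ i, (w j i : ℝ)
  · have h2 : Emp (Sum.elim (allp (k := k) h w p) (fun _ : Fin 1 => 1)) (TZ (3 * h)) := by
      refine Emp_emb (g := Sum.map (fun x => idxp k (r + 1) N p (Sum.inl x)) id) ?_ ?_ (hE hX)
      · exact Sum.map_injective.2 ⟨(idxp k (r + 1) N p).injective.comp Sum.inl_injective, Function.injective_id⟩
      · rintro (i | i)
        · simp only [Sum.map_inl, Sum.elim_inl]
          rw [allp_idxp]
          exact le_rfl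
        · simp
    obtain ⟨F2, hF2, h3⟩ := one_open h2
    refine ⟨F1 * F2, mul_ne_zero hF1 hF2, fun {L} _ _ P hP d => ?_⟩
    rw [map_mul] at hP
    refine ⟨fun hY hd => h1 P (left_ne_zero_of_mul hP) d (Or.inl ⟨hY, hd⟩), fun _ hd => ?_⟩
    rcases Nat.eq_zero_or_pos p with hp | hp
    · rcases expDim_or_one (h3 P (right_ne_zero_of_mul hP) d hd) with h5 | ⟨h5, h6⟩
      · exact Or.inl h5
      · exact Or.inr ⟨hp, h6, h5⟩
    · exact Or.inl (h1 P (left_ne_zero_of_mul hP) d (Or.inr ⟨hX, hd, hp⟩))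
  · refine ⟨F1, hF1, fun {L} _ _ P hP d => ?_⟩
    exact ⟨fun hY hd => h1 P hP d (Or.inl ⟨hY, hd⟩), fun hY => absurd hY hX⟩

end Pool.Agent.Q197.SG
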