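import Pool.Agent.Q197.SG.Plane

/-!
# The inequality in terms of the square root, and the groups
-/

set_option autoImplicit false

namespace Pool.Agent.Q197.SG

open Finset Pool.Agent.TH176.Nag Pool.Agent.TH603.Sur Pool.Agent.TH603.Cut Pool.Agent.TH641.NW
  Pool.Agent.TH469.SX Pool.Agent.H932R3 Pool.Agent.TH978.S13
open Pool.Agent.TH864.SX (Fb Fa Slp)

/-- a slope with the number `N` of points of a block and the root `ρ` of `M N` -/
structure Sl (M N q p : ℕ) (K ρ : ℝ) : Prop where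
  slp : Slp M q K
  hpq : p * q = 2
  hN : N = M + 2 * p
  hρ : ρ = 2 * K - M
  hρN : ρ = √((M : ℝ) * N)

variable {M N q p : ℕ} {K ρ : ℝ}

theorem Sl.M0 (h : Sl M N q p K ρ) : (0 : ℝ) < M := by exact_mod_cast h.slp.hM

theorem Sl.q0 (h : Sl M N q p K ρ) : (0 : ℝ) < q := by exact_mod_cast h.slp.hq

theorem Sl.K0 (h : Sl M N q p K ρ) : 0 < K := h.slp.K0

theorem Sl.ρ0 (h : Sl M N q p K ρ) : 0 < ρ := by
  have := h.slp.hMK
  have := h.M0
  rw [h.hρ]; linarith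

theorem Sl.NR (h : Sl M N q p K ρ) : (N : ℝ) = M + 2 * p := by rw [h.hN]; push_cast; ring

theorem Sl.pqR (h : Sl M N q p K ρ) : (p : ℝ) * q = 2 := by exact_mod_cast h.hpq

theorem Sl.sq (h : Sl M N q p K ρ) : ρ * ρ = M * N := by
  have h1 : (q : ℝ) * (ρ * ρ) = q * (M * N) := by
    rw [h.hρ, h.NR]
    linear_combination 4 * h.slp.eq - 2 * M * h.pqR
  exact mul_left_cancel₀ h.q0.ne' h1

theorem Sl.Kp (h : Sl M N q p K ρ) : (M : ℝ) * (K + p) = ρ * K := by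
  have h1 := h.sq
  have h2 : ρ * K = ρ * (ρ + M) / 2 := by rw [h.hρ]; ring
  rw [h2]
  have h3 : ρ * (ρ + M) = M * N + M * ρ := by rw [← h1]; ring
  rw [h3, h.NR, h.hρ]
  ring

theorem Sl.key (h : Sl M N q p K ρ) (D W : ℝ) :
    q * K * ρ * (N + 2 * W - ρ * (2 * D + 1)) =
      2 * M * (q * (K + p) * W - N * (q * (K * D) - 1)) := by
  have e := h.slp.eq
  have h1 := h.sq
  have h2 := h.Kp
  have h3 : (ρ : ℝ) = 2 * K - M := h.hρ
  -- `q K ρ N - q K M N = 2 M N`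
  have h4 : q * K * ρ * N - q * K * (M * N) = 2 * M * N := by
    rw [h3]; linear_combination 2 * N * e
  have e1 : q * K * ρ * (N + 2 * W - ρ * (2 * D + 1)) =
      q * K * ρ * N + 2 * q * W * (ρ * K) - q * K * (ρ * ρ) * (2 * D + 1) := by ring
  rw [e1, ← h2, h1]
  linear_combination h4

theorem Sl.lt (h : Sl M N q p K ρ) {D W : ℝ} (hW : ρ * (2 * D + 1) < N + 2 * W) :
    N * (q * (K * D) - 1) < q * (K + p) * W := by
  have h1 := h.key D W
  have h2 : 0 < q * K * ρ * (N + 2 * W - ρ * (2 * D + 1)) :=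
    mul_pos (mul_pos (mul_pos h.q0 h.K0) h.ρ0) (by linarith)
  rw [h1] at h2
  have h3 := (mul_pos_iff_of_pos_left (show 0 < 2 * (M : ℝ) by linarith [h.M0])).1 h2
  linarith

theorem Sl.le (h : Sl M N q p K ρ) {D W : ℝ} (hW : N + 2 * W ≤ ρ * (2 * D + 1)) :
    q * (K + p) * W ≤ N * (q * (K * D) - 1) := by
  by_contra hcon
  push Not at hcon
  have h1 := h.key D W
  have h2 : 0 < 2 * (M : ℝ) * (q * (K + p) * W - N * (q * (K * D) - 1)) :=
    mul_pos (by linarith [h.M0]) (by linarith)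
  rw [← h1] at h2
  have h3 := (mul_pos_iff_of_pos_left (mul_pos (mul_pos h.q0 h.K0) h.ρ0)).1 h2
  linarith

/-- emptiness of the flattened block, arbitrary multiplicities -/
theorem Sl.Emp (h : Sl M N q p K ρ) {ι : Type} [Fintype ι] (hc : Fintype.card ι = N) {w : ι → ℕ} {d : ℕ}
    (hW : ρ * (2 * (d / 3) + 1) < N + 2 * ∑ i, (w i : ℝ)) :
    Pool.Agent.TH176.Nag.Emp w (Fb q K d) := by
  rw [Fb_eq]
  refine Emp_Fl_w h.hpq h.K0 h.slp.eq (hc.trans h.hN) ?_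
  have h1 := h.lt hW
  rw [← h.NR]
  push_cast
  have e : K * d / 3 = K * (d / 3) := by ring
  rw [e]
  exact h1

/-- independence in the flattened block -/
theorem Sl.Sur (h : Sl M N q p K ρ) {ι : Type} [Fintype ι] (hc : Fintype.card ι = N) {w : ι → ℕ} {d b : ℕ}
    (hb : ∀ i, w i ≤ b + 1) (hW : N + 2 * ∑ i, ((max (w i) b : ℕ) : ℝ) ≤ ρ * (2 * (d / 3) + 1)) :
    Pool.Agent.TH603.Sur.Sur w (Fb q K d) := by
  rw [Fb_eq]
  refine Sur_Fl_w h.hpq h.K0 h.slp.eq (hc.trans h.hN) hb ?_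
  have h1 := h.le hW
  rw [← h.NR]
  have e : K * d / 3 = K * (d / 3) := by ring
  rw [e]
  push_cast at h1 ⊢
  exact h1

/-- `M + 2` points -/
theorem slN {M : ℕ} (hM : 1 ≤ M) : Sl M (M + 2) 2 1 (KN M) √((M : ℝ) * (M + 2 : ℕ)) ∧ KN M < M + 1 := by
  obtain ⟨h1, h2, h3⟩ := slpN hM
  refine ⟨⟨h1, rfl, rfl, ?_, rfl⟩, h3⟩
  have e : (M : ℝ) * (M + 2 : ℕ) = ((M * M + 2 * M : ℕ) : ℝ) := by push_cast; ring
  rw [e]
  unfold KN
  ring

/-- `M + 4` points -/
theorem slM {M : ℕ} (hM : 1 ≤ M) : Sl M (M + 4) 1 2 (KM M) √((M : ℝ) * (M + 4 : ℕ)) ∧ KM M < M + 1 := by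
  obtain ⟨h1, h2, h3⟩ := slpM hM
  refine ⟨⟨h1, rfl, rfl, ?_, rfl⟩, h3⟩
  have e : (M : ℝ) * (M + 4 : ℕ) = ((M * M + 4 * M : ℕ) : ℝ) := by push_cast; ring
  rw [e]
  unfold KM
  ring

/-- `r + 1` groups, independence -/
theorem Sur_groups {N M h : ℕ} {x : ℝ} (hM : 1 ≤ M) (r : ℕ) :
    ∀ w : Fin (r + 1) → Fin N → ℕ, (∀ j, Pool.Agent.TH603.Sur.Sur (w j) (Sc x (x + M) h)) →
    Pool.Agent.TH603.Sur.Sur (fun p : Fin (r + 1) × Fin N => w p.1 p.2) (Sc x (x + ((r + 1) * M : ℕ)) h) := by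
  have hMR : (1 : ℝ) ≤ M := by exact_mod_cast hM
  induction r with
  | zero =>
    intro w hw
    have e1 : x + (((0 + 1) * M : ℕ) : ℝ) = x + M := by push_cast; ring
    rw [e1]
    exact Sur_equiv (show Fin N ≃ Fin (0 + 1) × Fin N from (Equiv.uniqueProd (Fin N) (Fin 1)).symm)
      (fun i => rfl) (hw 0)
  | succ r ih =>
    intro w hw
    have h1 := ih (fun j => w j.castSucc) (fun j => hw _)
    have h2 : Pool.Agent.TH603.Sur.Sur (w (Fin.last _))
        (Sc (x + (((r + 1) * M : ℕ) : ℤ)) (x + M + (((r + 1) * M : ℕ) : ℤ)) h) :=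
      Sur_shift _ (hw _)
    have e1 : x + (((r + 1 + 1) * M : ℕ) : ℝ) = x + M + ((((r + 1) * M : ℕ) : ℤ) : ℝ) := by
      push_cast; ring
    have e2 : x + (((r + 1) * M : ℕ) : ℝ) = x + ((((r + 1) * M : ℕ) : ℤ) : ℝ) := by
      push_cast; ring
    rw [e1]
    rw [e2] at h1
    have h0 : (0 : ℝ) < ((((r + 1) * M : ℕ) : ℤ) : ℝ) := by
      have : 0 < (r + 1) * M := Nat.mul_pos (Nat.succ_pos r) hM
      exact_mod_cast this
    have key := Sur_add (x := x) (y := x + ((((r + 1) * M : ℕ) : ℤ) : ℝ))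
      (z := x + M + ((((r + 1) * M : ℕ) : ℤ) : ℝ)) (by linarith) (by linarith) h1 h2
    let g : (Fin (r + 1) × Fin N) ⊕ Fin N → Fin (r + 1 + 1) × Fin N :=
      Sum.elim (fun p => (p.1.castSucc, p.2)) (fun i => (Fin.last _, i))
    have hg : Function.Injective g := by
      rintro (⟨a, a'⟩ | a) (⟨b, b'⟩ | b) hab
      · simpa [g] using hab
      · simp only [g, Sum.elim_inl, Sum.elim_inr, Prod.mk.injEq] at hab
        exact absurd hab.1 (Fin.castSucc_lt_last a).ne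
      · simp only [g, Sum.elim_inl, Sum.elim_inr, Prod.mk.injEq] at hab
        exact absurd hab.1.symm (Fin.castSucc_lt_last b).ne
      · simpa [g] using hab
    have hcard : Fintype.card ((Fin (r + 1) × Fin N) ⊕ Fin N) = Fintype.card (Fin (r + 1 + 1) × Fin N) := by
      simp; ring
    refine Sur_equiv (Equiv.ofBijective g
      ((Fintype.bijective_iff_injective_and_card g).2 ⟨hg, hcard⟩)) ?_ key
    rintro (i | i) <;> rfl

end Pool.Agent.Q197.SG
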