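import Pool.Agent.Q197.SG.Blk

/-!
# From the blocks to the plane, with one more simple point
-/

set_option autoImplicit false

namespace Pool.Agent.Q197.SG

open Finset Pool.Agent.TH176.Nag Pool.Agent.TH603.Sur Pool.Agent.TH603.Cut Pool.Agent.TH641.NW
  Pool.Agent.TH469.SX Pool.Agent.H932R3 Pool.Agent.TH978.S13
open Pool.Agent.TH864.SX (Fb Fa Slp)

/-- three sectors, the apex belongs to the first one -/
theorem Emp_TZ3' {κ1 κ2 κ3 : Type} [Finite κ1] [Finite κ2] [Finite κ3] {w1 : κ1 → ℕ} {w2 : κ2 → ℕ}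
    {w3 : κ3 → ℕ} {q d : ℕ} {K : ℝ} (h : Slp 3 q K) (h6 : K < 6)
    (h1 : Emp w1 (Fa q K d)) (h2 : Emp w2 (Fb q K d)) (h3 : Emp w3 (Fb q K d)) :
    Emp (Sum.elim (Sum.elim w1 w2) w3) (TZ d) := by
  have hK3 : (3 : ℝ) < K := by have := h.hMK; push_cast at this; exact this
  obtain ⟨τ, hτ⟩ : ∃ τ : ℝ, τ = K / 3 - 1 := ⟨_, rfl⟩
  have hτ0 : 0 < τ := by linarith
  have hτ1 : τ < 1 := by linarith
  have hK : K = 3 + 3 * τ := by linarith
  have hsec0 : Emp w1 {p : ℤ × ℤ | 0 ≤ p.2 ∧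
      (-1 - τ) * ((d : ℝ) - 3 * p.2) ≤ p.1 ∧ (p.1 : ℝ) ≤ (-τ) * ((d : ℝ) - 3 * p.2)} := by
    refine (Pool.Agent.TH864.SX.Emp_blk h h1).comap (-1) 0 0 1 0 0 (by norm_num) ?_
    rintro ⟨x, y⟩ ⟨g1, g2, g3⟩
    simp only at g1 g2 g3
    refine ⟨by simp only; omega, ?_, ?_⟩
    · simp only
      rw [hK]
      push_cast
      linarith
    · simp only
      rw [hK]
      push_cast
      linarith
  have hsec : ∀ (i : ℕ) {κ : Type} {w : κ → ℕ}, Emp w (Fb q K d) → Emp w {p : ℤ × ℤ | 0 ≤ p.2 ∧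
      ((i : ℝ) - 1 - τ) * ((d : ℝ) - 3 * p.2) < p.1 ∧ (p.1 : ℝ) ≤ ((i : ℝ) - τ) * ((d : ℝ) - 3 * p.2) ∧
      (0 : ℝ) ≤ (d : ℝ) - 3 * p.2} := by
    intro i κ w hw
    refine (Emp_blk1 h hw).comap (-1) (-(3 * (i : ℤ))) 0 1 (i * d) 0 (by norm_num) ?_
    rintro ⟨x, y⟩ ⟨g1, g2, g3, g4⟩
    simp only at g1 g2 g3 g4
    have hlo : τ * ((d : ℝ) - 3 * y) ≤ (i : ℝ) * ((d : ℝ) - 3 * y) - x := by linarith
    have hy : (0 : ℝ) < (d : ℝ) - 3 * y := by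
      rcases g4.lt_or_eq with g5 | g5
      · exact g5
      · exfalso
        rw [← g5] at g2 g3
        linarith
    refine ⟨⟨by simp only; omega, ?_, ?_⟩, ?_⟩
    · simp only
      rw [hK]
      push_cast
      linarith
    · simp only
      rw [hK]
      push_cast
      linarith
    · simp only
      have h5 : (0 : ℝ) < (((-1) * x + -(3 * (i : ℤ)) * y + i * d : ℤ) : ℝ) := by
        push_cast
        have := mul_pos hτ0 hy
        linarith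
      have h6 : (0 : ℤ) < (-1) * x + -(3 * (i : ℤ)) * y + i * d := by exact_mod_cast h5
      linarith
  refine keyE _ _ d τ hτ0 hτ1 ?_
  have hfin := Reg_finite (α := -((d : ℝ) * (1 + τ))) (β := d * (2 - τ))
    (μ := 3 * (1 + τ)) (ν := 3 * (2 - τ)) (by linarith)
  set R := Reg (-((d : ℝ) * (1 + τ))) (d * (2 - τ)) (3 * (1 + τ)) (3 * (2 - τ)) with hR
  have hpos : ∀ p ∈ R, (0 : ℝ) ≤ (d : ℝ) - 3 * p.2 := by
    rintro ⟨x, y⟩ ⟨g1, g2, g3⟩
    simp only at g1 g2 g3 ⊢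
    nlinarith
  have hcov : R ⊆ ({p | p ∈ R ∧ (p.1 : ℝ) ≤ -τ * ((d : ℝ) - 3 * p.2)} ∪
      {p | p ∈ R ∧ -τ * ((d : ℝ) - 3 * p.2) < p.1 ∧ (p.1 : ℝ) ≤ (1 - τ) * ((d : ℝ) - 3 * p.2)}) ∪
      {p | p ∈ R ∧ (1 - τ) * ((d : ℝ) - 3 * p.2) < p.1} := by
    intro p hp
    rcases le_or_gt (p.1 : ℝ) (-τ * ((d : ℝ) - 3 * p.2)) with h1 | h1
    · exact Or.inl (Or.inl ⟨hp, h1⟩)
    · rcases le_or_gt (p.1 : ℝ) ((1 - τ) * ((d : ℝ) - 3 * p.2)) with h2 | h2
      · exact Or.inl (Or.inr ⟨hp, h1, h2⟩)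
      · exact Or.inr ⟨hp, h2⟩
  refine Emp.mono ?_ hcov
  refine cut_E (ρ := -3 * (1 - τ)) (hfin.subset ?_) (hfin.subset fun p hp => hp.1) ?_
    (cut_E (ρ := 3 * τ) (hfin.subset fun p hp => hp.1) (hfin.subset fun p hp => hp.1) ?_ ?_ ?_) ?_
  · rintro p (hp | hp)
    · exact hp.1
    · exact hp.1
  · rintro p (⟨hp, h1⟩ | ⟨hp, h1, h2⟩) p' ⟨hp', h3⟩
    · have := hpos p hp
      nlinarith
    · linarith
  · rintro p ⟨hp, h1⟩ p' ⟨hp', h2, h3⟩
    linarith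
  · refine hsec0.mono ?_
    rintro ⟨x, y⟩ ⟨⟨g1, g2, g3⟩, h1⟩
    simp only at g1 g2 g3 h1
    refine ⟨g1, ?_, ?_⟩
    · simp only; linarith
    · simp only; linarith
  · refine (hsec 1 h2).mono ?_
    rintro ⟨x, y⟩ ⟨hp, h1, h2⟩
    have h0 := hpos _ hp
    obtain ⟨g1, g2, g3⟩ := hp
    simp only at g1 g2 g3 h1 h2 h0
    refine ⟨g1, ?_, ?_, h0⟩
    · simp only; push_cast; linarith
    · simp only; push_cast; linarith
  · refine (hsec 2 h3).mono ?_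
    rintro ⟨x, y⟩ ⟨hp, h1⟩
    have h0 := hpos _ hp
    obtain ⟨g1, g2, g3⟩ := hp
    simp only at g1 g2 g3 h1 h0
    refine ⟨g1, ?_, ?_, h0⟩
    · simp only; push_cast; linarith
    · simp only; push_cast; linarith

/-- moving the simple point to the end -/
theorem Emp_move {κ1 κ2 : Type} {w1 : κ1 → ℕ} {w2 : κ2 → ℕ} {S : Set (ℤ × ℤ)}
    (h : Emp (Sum.elim (Sum.elim w1 (fun _ : Fin 1 => 1)) w2) S) :
    Emp (Sum.elim (Sum.elim w1 w2) (fun _ : Fin 1 => 1)) S := by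
  refine Emp_emb (g := Sum.elim (Sum.elim (fun i => Sum.inl (Sum.inl i)) (fun j => Sum.inr j))
    (fun j => Sum.inl (Sum.inr j))) ?_ ?_ h
  · rintro ((a | a) | a) ((b | b) | b) hab <;> simp_all
  · rintro ((a | a) | a) <;> simp

/-- adding a sector, with the simple point at the end -/
theorem Emp_add1 {κ1 κ2 : Type} [Finite κ1] [Finite κ2] {w : κ1 → ℕ} {v : κ2 → ℕ} {x y z : ℝ} {h : ℕ}
    (hxy : x < y) (hyz : y < z) (hy : Irrational y)
    (h1 : Emp (Sum.elim w (fun _ : Fin 1 => 1)) (Sc x y h ∪ {((0, (h : ℤ)) : ℤ × ℤ)}))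
    (h2 : Emp v (Sc y z h)) :
    Emp (Sum.elim (Sum.elim w v) (fun _ : Fin 1 => 1)) (Sc x z h ∪ {((0, (h : ℤ)) : ℤ × ℤ)}) :=
  Emp_move (Emp_add hxy hyz hy h1 h2)

/-- the sector from its flattening -/
theorem Emp_Sc {κ : Type} {w : κ → ℕ} {M q h : ℕ} {K : ℝ} (hS : Slp M q K) (hE : Emp w (Fb q K (3 * h))) :
    Emp w (Sc (K - M) K h) := by
  refine (Emp_blk1 hS hE).mono ?_
  intro p hp
  have hd : (((3 * h : ℕ) : ℝ)) / 3 = h := by push_cast; ring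
  have hMR : (0 : ℝ) < M := by exact_mod_cast hS.hM
  have h0 := Sc_pos (by linarith) hp
  obtain ⟨g1, g2, g3⟩ := hp
  refine ⟨⟨g1, ?_, ?_⟩, ?_⟩
  · rw [hd]; exact g2.le
  · rw [hd]; exact g3.le
  · have h1 : (0 : ℝ) < p.1 := lt_of_le_of_lt (mul_nonneg (by linarith [hS.hMK]) h0.le) g2
    have h2 : (0 : ℤ) < p.1 := by exact_mod_cast h1
    omega

/-- the first sector, with the apex and the simple point -/
theorem Emp_Sc1 {κ : Type} {w : κ → ℕ} {M q h : ℕ} {K : ℝ} (hS : Slp M q K)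
    (hE : Emp w (Fb q K (3 * h))) :
    Emp (Sum.elim w (fun _ : Fin 1 => 1)) (Sc (K - M) K h ∪ {((0, (h : ℤ)) : ℤ × ℤ)}) := by
  refine (Pool.Agent.TH864.SX.Emp_blk hS (Emp_apex1 hE)).mono ?_
  have hd : (((3 * h : ℕ) : ℝ)) / 3 = h := by push_cast; ring
  rintro p (⟨g1, g2, g3⟩ | hp)
  · refine ⟨g1, ?_, ?_⟩
    · rw [hd]; exact g2.le
    · rw [hd]; exact g3.le
  · rw [Set.mem_singleton_iff] at hp
    rw [hp]
    refine ⟨by simp, ?_, ?_⟩
    · rw [hd]; simp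
    · rw [hd]; simp

/-- `r + 1` groups and one simple point -/
theorem Emp_groups {N M q h : ℕ} {K : ℝ} (hS : Slp M q K) (hirr : Irrational (K - M)) (r : ℕ) :
    ∀ w : Fin (r + 1) → Fin N → ℕ, (∀ j, Emp (w j) (Fb q K (3 * h))) →
    Emp (Sum.elim (fun p : Fin (r + 1) × Fin N => w p.1 p.2) (fun _ : Fin 1 => 1))
      (Sc (K - M) (K - M + ((r + 1) * M : ℕ)) h ∪ {((0, (h : ℤ)) : ℤ × ℤ)}) := by
  have hMR : (1 : ℝ) ≤ M := by exact_mod_cast hS.hM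
  induction r with
  | zero =>
    intro w hw
    have e1 : K - M + (((0 + 1) * M : ℕ) : ℝ) = K := by push_cast; ring
    rw [e1]
    refine Emp_emb (g := Sum.elim (fun i => Sum.inl ((0 : Fin (0 + 1)), i)) Sum.inr) ?_ ?_
      (Emp_Sc1 hS (hw 0))
    · rintro (a | a) (b | b) hab <;> simp_all
    · rintro (a | a) <;> simp
  | succ r ih =>
    intro w hw
    have h1 := ih (fun j => w j.castSucc) (fun j => hw _)
    have h2 : Emp (w (Fin.last _)) (Sc (K - M + (((r + 1) * M : ℕ) : ℤ)) (K + (((r + 1) * M : ℕ) : ℤ)) h) :=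
      Emp_shift _ (Emp_Sc hS (hw _))
    have e1 : K - M + (((r + 1 + 1) * M : ℕ) : ℝ) = K + ((((r + 1) * M : ℕ) : ℤ) : ℝ) := by
      push_cast; ring
    have e2 : K - M + (((r + 1) * M : ℕ) : ℝ) = K - M + ((((r + 1) * M : ℕ) : ℤ) : ℝ) := by
      push_cast; ring
    rw [e1]
    rw [e2] at h1
    have h0 : (0 : ℝ) < ((((r + 1) * M : ℕ) : ℤ) : ℝ) := by
      have : 0 < (r + 1) * M := Nat.mul_pos (Nat.succ_pos r) hS.hM
      exact_mod_cast this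
    have key := Emp_add1 (x := K - M) (y := K - M + ((((r + 1) * M : ℕ) : ℤ) : ℝ))
      (z := K + ((((r + 1) * M : ℕ) : ℤ) : ℝ)) (by linarith) (by linarith) (hirr.add_intCast _) h1 h2
    refine Emp_emb (g := Sum.elim (Sum.elim (fun p => Sum.inl (p.1.castSucc, p.2))
      (fun i => Sum.inl (Fin.last _, i))) Sum.inr) ?_ ?_ key
    · rintro ((⟨a, a'⟩ | a) | a) ((⟨b, b'⟩ | b) | b) hab
      · simpa using hab
      · simp only [Sum.elim_inl, Sum.elim_inr, Sum.inl.injEq, Prod.mk.injEq] at hab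
        exact absurd hab.1 (Fin.castSucc_lt_last a).ne
      · simp at hab
      · simp only [Sum.elim_inl, Sum.inl.injEq, Prod.mk.injEq, Sum.elim_inr] at hab
        exact absurd hab.1.symm (Fin.castSucc_lt_last b).ne
      · simpa using hab
      · simp at hab
      · simp at hab
      · simp at hab
      · simpa using hab
    · rintro ((⟨a, a'⟩ | a) | a) <;> simp

/-- adding `k` points of multiplicity at least `h`, with the simple point at the end -/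
theorem Emp_units1 {κ : Type} [Finite κ] {w : κ → ℕ} {h : ℕ} {x : ℝ} {a : ℕ} (ha : 1 ≤ a)
    (hx : Irrational x)
    (hE : Emp (Sum.elim w (fun _ : Fin 1 => 1)) (Sc x (x + a) h ∪ {((0, (h : ℤ)) : ℤ × ℤ)})) (k : ℕ) :
    ∀ v : Fin k → ℕ, (∀ i, h ≤ v i) →
    Emp (Sum.elim (Sum.elim w v) (fun _ : Fin 1 => 1))
      (Sc x (x + (a + k : ℕ)) h ∪ {((0, (h : ℤ)) : ℤ × ℤ)}) := by
  intro v hv
  have h1 := Emp_move (κ2 := Fin k) (w2 := fun _ => h) (Emp_units ha hx hE k)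
  refine Emp_emb (g := id) Function.injective_id ?_ h1
  rintro ((i | i) | i)
  · simp
  · simpa using hv i
  · simp

end Pool.Agent.Q197.SG
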