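import Pool.Agent.Q197.SG.Anti
import Pool.Agent.TH864.SX.Eleven

/-!
# 11, 15 and 27 points of one multiplicity: the expected dimension or one curve
-/

set_option autoImplicit false

namespace Pool.Agent.Q197.SG

open Finset Pool.Agent.TH176.Nag Pool.Agent.TH603.Sur Pool.Agent.TH603.Cut Pool.Agent.TH641.NW
  Pool.Agent.TH469.SX Pool.Agent.H932R3 Pool.Agent.TH978.S13
open Pool.Agent.TH864.SX (Fb Fa Slp)

theorem sqrt_nine_mul (x : ℝ) : √(9 * x) = 3 * √x := by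
  rw [Real.sqrt_mul (by norm_num)]
  have : √(9 : ℝ) = 3 := by
    rw [show (9 : ℝ) = 3 ^ 2 by norm_num]
    exact Real.sqrt_sq (by norm_num)
  rw [this]

/-- eleven points, arbitrary multiplicities -/
theorem Emp11 (w : Fin 11 → ℕ) (d : ℕ) (hX : √11 * (2 * d + 3) < 11 + 2 * ∑ i, (w i : ℝ)) :
    Emp (Sum.elim w (fun _ : Fin 1 => 1)) (TZ d) := by
  obtain ⟨hs, h1⟩ := slN (M := 9) (by norm_num)
  have h12 : KN 9 < 12 := by push_cast at h1; linarith
  refine Pool.Agent.TH864.SX.Emp_TZ9 hs.slp h12 (Emp_apex1 (hs.Emp (Fintype.card_fin _) ?_))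
  have e : (((9 : ℕ) : ℝ) * ((9 + 2 : ℕ) : ℝ)) = 9 * 11 := by norm_num
  rw [e, sqrt_nine_mul]
  have e2 : 3 * √(11 : ℝ) * (2 * (d / 3) + 1) = √11 * (2 * d + 3) := by ring
  rw [e2]
  push_cast
  linarith

/-- three groups, the simple point at the end -/
theorem Emp_three {κ : Type} {w : κ → ℕ} {S : Set (ℤ × ℤ)}
    (h : Emp (Sum.elim (Sum.elim (Sum.elim w (fun _ : Fin 1 => 1)) w) w) S) :
    Emp (Sum.elim (Sum.elim (Sum.elim w w) w) (fun _ : Fin 1 => 1)) S := by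
  refine Emp_emb (g := Sum.elim (Sum.elim (Sum.elim (fun i => Sum.inl (Sum.inl (Sum.inl i))) Sum.inr)
    (fun i => Sum.inl (Sum.inl (Sum.inr i)))) (fun i => Sum.inl (Sum.inr i))) ?_ ?_ h
  · rintro (((a | a) | a) | a) (((b | b) | b) | b) hab <;> simp_all
  · rintro (((a | a) | a) | a) <;> simp

/-- fifteen points in three groups with the same multiplicities -/
theorem Emp15' (w : Fin 5 → ℕ) (d : ℕ) (hX : √15 * (2 * d + 3) < 15 + 6 * ∑ i, (w i : ℝ)) :
    Emp (Sum.elim (Sum.elim (Sum.elim w w) w) (fun _ : Fin 1 => 1)) (TZ d) := by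
  obtain ⟨hs, h1⟩ := slN (M := 3) (by norm_num)
  have h6 : KN 3 < 6 := by push_cast at h1; linarith
  have hE : Emp w (Fb 2 (KN 3) d) := by
    refine hs.Emp (Fintype.card_fin _) ?_
    have e : (((3 : ℕ) : ℝ) * ((3 + 2 : ℕ) : ℝ)) = 15 := by norm_num
    rw [e]
    have e2 : √(15 : ℝ) * (2 * (d / 3) + 1) = √15 * (2 * d + 3) / 3 := by ring
    rw [e2]
    push_cast
    linarith
  exact Emp_three (Emp_TZ3' hs.slp h6 (Emp_apex1 hE) hE hE)

/-- fifteen points of one multiplicity -/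
theorem Emp15 (m d : ℕ) (hX : √15 * (2 * d + 3) < 15 * (2 * m + 1)) :
    Emp (Sum.elim (fun _ : Fin 15 => m) (fun _ : Fin 1 => 1)) (TZ d) := by
  have h1 := Emp15' (fun _ => m) d (by
    rw [sum_const, card_univ, Fintype.card_fin, nsmul_eq_mul]
    push_cast
    linarith)
  have e : (Fin 5 ⊕ Fin 5) ⊕ Fin 5 ≃ Fin 15 := Fintype.equivOfCardEq (by simp)
  refine Emp_reidx e ?_ h1
  rintro ((i | i) | i) <;> simp

/-- twenty-seven points of one multiplicity -/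
theorem Emp27 (m h : ℕ) (hX : √27 * (2 * (3 * h : ℕ) + 3) < 27 * (2 * m + 1)) :
    Emp (Sum.elim (fun _ : Fin 27 => m) (fun _ : Fin 1 => 1)) (TZ (3 * h)) := by
  obtain ⟨hs, h1⟩ := slN (M := 1) (by norm_num)
  have e27 : √(27 : ℝ) = 3 * √3 := by
    rw [show (27 : ℝ) = 9 * 3 by norm_num, sqrt_nine_mul]
  have h2 := Emp_anti (r := 8) (k := 0) (h := h) hs (by push_cast at h1 ⊢; linarith) (by norm_num)
    (fun _ _ => m) (by
      intro _
      have e : (((1 : ℕ) : ℝ) * ((1 + 2 : ℕ) : ℝ)) = 3 := by norm_num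
      rw [e, sum_const, card_univ, Fintype.card_fin, nsmul_eq_mul]
      rw [e27] at hX
      push_cast at hX ⊢
      linarith) (fun i => i.elim0) (fun i => i.elim0)
  have e : (Fin (8 + 1) × Fin (1 + 2)) ⊕ Fin 0 ≃ Fin 27 := Fintype.equivOfCardEq (by simp)
  refine Emp_reidx e ?_ h2
  rintro (i | i)
  · simp
  · exact i.elim0

/-- the degrees for which a curve may be unexpected -/
theorem nat_bound {n m d : ℕ} (hn : 1 ≤ n) (hX : √(n : ℝ) * (2 * d + 3) < n * (2 * m + 1)) :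
    d ≤ n * (2 * m + 1) := by
  have h1 : 1 ≤ √(n : ℝ) := by
    rw [Real.one_le_sqrt]
    exact_mod_cast hn
  have h2 : (2 * (d : ℝ) + 3) ≤ √(n : ℝ) * (2 * d + 3) := le_mul_of_one_le_left (by positivity) h1
  have h3 : (d : ℝ) ≤ ((n * (2 * m + 1) : ℕ) : ℝ) := by
    push_cast
    have : (0 : ℝ) ≤ d := Nat.cast_nonneg _
    linarith
  exact_mod_cast h3

/-- **27 points, degrees divisible by three**, outside of the window -/
theorem dich27 (m d : ℕ) (h3 : 3 ∣ d) (hG : (d : ℝ) < √27 * m ∨ √27 * (2 * m + 1) ≤ 2 * d + 3) :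
    Emp (fun _ : Fin 27 => m) (TZ d) ∨ Sur (fun _ : Fin 27 => m) (TZ d) := by
  obtain ⟨h, rfl⟩ := h3
  obtain ⟨hs, h1⟩ := slN (M := 1) (by norm_num)
  have e27 : √(27 : ℝ) = 3 * √3 := by
    rw [show (27 : ℝ) = 9 * 3 by norm_num, sqrt_nine_mul]
  have hsq : √(27 : ℝ) * √27 = 27 := Real.mul_self_sqrt (by norm_num)
  have hpos : 0 < √(27 : ℝ) := Real.sqrt_pos.2 (by norm_num)
  rcases hG with hG | hG
  · left
    refine Pool.Agent.TH603.EL.Emp_plane (by rw [Fintype.card_fin]; norm_num) ?_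
    rw [Fintype.card_fin, sum_const, card_univ, Fintype.card_fin, nsmul_eq_mul]
    have h2 := mul_lt_mul_of_pos_left hG hpos
    rw [← mul_assoc, hsq] at h2
    push_cast at h2 ⊢
    linarith
  · right
    have h2 := Sur_anti (r := 8) (k := 0) (h := h) hs (by push_cast at h1 ⊢; linarith) (by norm_num)
      (fun _ _ => m) (fun _ => m) (fun _ _ => by omega) (by
        intro _
        have e : (((1 : ℕ) : ℝ) * ((1 + 2 : ℕ) : ℝ)) = 3 := by norm_num
        simp only [max_self]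
        rw [e, sum_const, card_univ, Fintype.card_fin, nsmul_eq_mul]
        have h4 := mul_le_mul_of_nonneg_left hG hpos.le
        rw [← mul_assoc, hsq, e27] at h4
        push_cast at h4 ⊢
        linarith)
    have e : (Fin (8 + 1) × Fin (1 + 2)) ⊕ Fin 0 ≃ Fin 27 := Fintype.equivOfCardEq (by simp)
    refine Sur_equiv e ?_ h2
    rintro (i | i)
    · simp
    · exact i.elim0

/-- **11, 15 and 27 points**: the expected dimension or one curve -/
theorem uni_one {n : ℕ} (hn : n = 11 ∨ n = 15 ∨ n = 27) (m : ℕ) :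
    ∃ F : MvPolynomial (Fin n × Fin 2) ℚ, F ≠ 0 ∧ ∀ {L : Type} [Field L] [CharZero L]
      (P : Fin n → Fin 2 → L), MvPolynomial.aeval (fun ij : Fin n × Fin 2 => P ij.1 ij.2) F ≠ 0 →
      ∀ d : ℕ, (n = 27 → 3 ∣ d) → ExpDim L (fun _ => m) P d ∨
        (dimL L (fun _ => m) P d = 1 ∧ (d + 2).choose 2 ≤ n * (m + 1).choose 2 ∧ 3 ∣ d ∧
          √(n : ℝ) * m ≤ d ∧ 2 * (d : ℝ) + 3 < √(n : ℝ) * (2 * m + 1)) := by
  -- outside of the window
  have p1 : ∃ F : MvPolynomial (Fin n × Fin 2) ℚ, F ≠ 0 ∧ ∀ {L : Type} [Field L] [CharZero L]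
      (P : Fin n → Fin 2 → L), MvPolynomial.aeval (fun ij : Fin n × Fin 2 => P ij.1 ij.2) F ≠ 0 →
      ∀ d : ℕ, (n = 27 → 3 ∣ d) → (¬ 3 ∣ d ∨ (d : ℝ) < √(n : ℝ) * m ∨ √(n : ℝ) * (2 * m + 1) ≤ 2 * d + 3) →
        ExpDim L (fun _ => m) P d := by
    rcases hn with rfl | rfl | rfl
    · obtain ⟨F, hF, hF'⟩ := Pool.Agent.TH864.SX.uniform11 m
      exact ⟨F, hF, fun P hP d _ hd => hF' P hP d (by push_cast at hd; exact hd)⟩
    · obtain ⟨F, hF, hF'⟩ := Pool.Agent.TH469.SX.fifteen m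
      exact ⟨F, hF, fun P hP d _ hd => hF' P hP d (by push_cast at hd; exact hd)⟩
    · obtain ⟨F, hF, hF'⟩ := Pool.Agent.TH864.SX.expDim_of_or' (n := 27) (w := fun _ => m)
        (G := fun d => 3 ∣ d ∧ ((d : ℝ) < √27 * m ∨ √27 * (2 * m + 1) ≤ 2 * d + 3))
        (fun d hd => dich27 m d hd.1 hd.2)
      refine ⟨F, hF, fun P hP d h3 hd => hF' P hP d ⟨h3 rfl, ?_⟩⟩
      push_cast at hd
      exact hd.resolve_left (fun h => h (h3 rfl))
  -- one curve
  have hn1 : 1 ≤ n := by omega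
  have p2 : ∃ F : MvPolynomial (Fin n × Fin 2) ℚ, F ≠ 0 ∧ ∀ {L : Type} [Field L] [CharZero L]
      (P : Fin n → Fin 2 → L), MvPolynomial.aeval (fun ij : Fin n × Fin 2 => P ij.1 ij.2) F ≠ 0 →
      ∀ d d' : ℕ, (3 ∣ d' ∧ √(n : ℝ) * (2 * d' + 3) < n * (2 * m + 1)) → d ≤ d' →
        dimL L (fun _ => m) P d ≤ 1 := by
    refine one_all (n * (2 * m + 1)) (fun d hd => nat_bound hn1 hd.2) ?_
    rintro d ⟨h3, hX⟩
    rcases hn with rfl | rfl | rfl
    · refine Emp11 _ d ?_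
      rw [sum_const, card_univ, Fintype.card_fin, nsmul_eq_mul]
      push_cast at hX ⊢
      linarith
    · exact Emp15 m d (by push_cast at hX; exact hX)
    · obtain ⟨h, rfl⟩ := h3
      exact Emp27 m h (by push_cast at hX ⊢; exact hX)
  obtain ⟨F1, hF1, h1⟩ := p1
  obtain ⟨F2, hF2, h2⟩ := p2
  refine ⟨F1 * F2, mul_ne_zero hF1 hF2, fun {L} _ _ P hP d hd => ?_⟩
  rw [map_mul] at hP
  by_cases hG : ¬ 3 ∣ d ∨ (d : ℝ) < √(n : ℝ) * m ∨ √(n : ℝ) * (2 * m + 1) ≤ 2 * d + 3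
  · exact Or.inl (h1 P (left_ne_zero_of_mul hP) d hd hG)
  · push Not at hG
    obtain ⟨g1, g2, g3⟩ := hG
    have hsq : √(n : ℝ) * √(n : ℝ) = n := Real.mul_self_sqrt (Nat.cast_nonneg _)
    have hpos : 0 < √(n : ℝ) := Real.sqrt_pos.2 (by exact_mod_cast hn1)
    have h4 : √(n : ℝ) * (2 * d + 3) < n * (2 * m + 1) := by
      have := mul_lt_mul_of_pos_left g3 hpos
      rw [← mul_assoc, hsq] at this
      exact this
    have h3 := h2 P (right_ne_zero_of_mul hP) d d ⟨g1, h4⟩ le_rfl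
    rcases expDim_or_one h3 with h5 | ⟨h5, h6⟩
    · exact Or.inl h5
    · refine Or.inr ⟨h6, ?_, g1, g2, g3⟩
      rw [sum_const, card_univ, Fintype.card_fin, smul_eq_mul] at h5
      exact h5

end Pool.Agent.Q197.SG
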