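import Pool.Agent.Q197.SG.Uni
import Pool.Agent.Q195.WN.Final
import Pool.Agent.Q251.SHA.Final

/-!
# Uniform multiplicities: the windows left open, with at most one curve
-/

set_option autoImplicit false

namespace Pool.Agent.Q197.SG

open Finset Pool.Agent.H932R3

/-- The degrees which are left open: degrees divisible by three in an interval of length `0.0155` above
`√11 m + 0.1428` for `n = 11` (and two single pairs), of length `0.0332` above `√15 m + 0.4032` for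
`n = 15`, of length `0.0981` above `√27 m + 1` for `n = 27`. -/
def Open (n m d : ℕ) : Prop :=
  3 ∣ d ∧ 2 * (d : ℝ) + 3 < √(n : ℝ) * (2 * m + 1) ∧
    ((n = 11 ∧ (√11 * m + (171 * √11 - 567) ≤ d ∨ (m = 28 ∧ d = 93) ∨ (m = 47 ∧ d = 156))) ∨
      (n = 15 ∧ √15 * m + (33 - 8 * √15) / 5 ≤ d) ∨ (n = 27 ∧ √27 * m + 1 ≤ d))

theorem uni_win {n : ℕ} (hn : n = 11 ∨ n = 15 ∨ n = 27) (m : ℕ) :
    ∃ F : MvPolynomial (Fin n × Fin 2) ℚ, F ≠ 0 ∧ ∀ {L : Type} [Field L] [CharZero L]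
      (P : Fin n → Fin 2 → L), MvPolynomial.aeval (fun ij : Fin n × Fin 2 => P ij.1 ij.2) F ≠ 0 →
      ∀ d : ℕ, (n = 27 → 3 ∣ d) → ExpDim L (fun _ => m) P d ∨
        (dimL L (fun _ => m) P d = 1 ∧ (d + 2).choose 2 ≤ n * (m + 1).choose 2 ∧ Open n m d) := by
  obtain ⟨F1, hF1, h1⟩ := uni_one hn m
  have p2 : ∃ F : MvPolynomial (Fin n × Fin 2) ℚ, F ≠ 0 ∧ ∀ {L : Type} [Field L] [CharZero L]
      (P : Fin n → Fin 2 → L), MvPolynomial.aeval (fun ij : Fin n × Fin 2 => P ij.1 ij.2) F ≠ 0 →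
      ∀ d : ℕ, (3 ∣ d ∧ 2 * (d : ℝ) + 3 < √(n : ℝ) * (2 * m + 1)) → ¬ Open n m d →
        ExpDim L (fun _ => m) P d := by
    rcases hn with rfl | rfl | rfl
    · obtain ⟨F, hF, hF'⟩ := Pool.Agent.Q195.WN.exp11 m
      refine ⟨F, hF, fun P hP d hd ho => hF' P hP d fun h => ho ?_⟩
      unfold Pool.Agent.Q195.WN.Open11 at h
      refine ⟨hd.1, hd.2, Or.inl ⟨rfl, ?_⟩⟩
      rcases h with h | h | h
      · exact Or.inl h.2.1
      · exact Or.inr (Or.inl h)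
      · exact Or.inr (Or.inr h)
    · obtain ⟨F, hF, hF'⟩ := Pool.Agent.Q251.SHA.expDim15 m
      refine ⟨F, hF, fun P hP d hd ho => hF' P hP d (Or.inr (Or.inl ?_))⟩
      by_contra h
      push Not at h
      exact ho ⟨hd.1, hd.2, Or.inr (Or.inl ⟨rfl, by linarith⟩)⟩
    · obtain ⟨F, hF, hF'⟩ := Pool.Agent.Q251.SHA.expDim27 m
      refine ⟨F, hF, fun P hP d hd ho => hF' P hP d ⟨hd.1, Or.inl ?_⟩⟩
      by_contra h
      push Not at h
      exact ho ⟨hd.1, hd.2, Or.inr (Or.inr ⟨rfl, h⟩)⟩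
  obtain ⟨F2, hF2, h2⟩ := p2
  refine ⟨F1 * F2, mul_ne_zero hF1 hF2, fun {L} _ _ P hP d hd => ?_⟩
  rw [map_mul] at hP
  rcases h1 P (left_ne_zero_of_mul hP) d hd with h3 | ⟨h3, h4, h5, -, h6⟩
  · exact Or.inl h3
  · by_cases ho : Open n m d
    · exact Or.inr ⟨h3, h4, ho⟩
    · exact Or.inl (h2 P (right_ne_zero_of_mul hP) d ⟨h5, h6⟩ ho)

end Pool.Agent.Q197.SG
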